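import Pool.Agent.Lib.MP_fb520c_co.R.Min

/-! An upper bound for the packing density from long chords. -/

set_option autoImplicit false

open MeasureTheory Set Real Filter Topology Metric
open scoped ENNReal

noncomputable section

namespace Pool.Agent.Lib.MP_fb520c_co

variable {C : Set Plane}

/-- through every boundary point there is a parallel chord of unit length at height `q` or more -/
def Chord (q : ℝ) (C : Set Plane) : Prop :=
  ∀ x, gauge C x = 1 → ∃ y, y ∈ C ∧ y - x ∈ C ∧ q ≤ dt x y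

lemma exists_prim (p q : Plane) {k : ℤ × ℤ} (hk : k ≠ (0, 0)) : ∃ (m n u v : ℤ) (g : ℝ),
    m * u + n * v = 1 ∧ 1 ≤ g ∧ lp p q k = g • lp p q (m, n) := by
  obtain ⟨m, n⟩ := k
  have g0 : 0 < Int.gcd m n := Int.gcd_pos_iff.2 (by
    by_contra hc
    push Not at hc
    exact hk (by rw [hc.1, hc.2]))
  obtain ⟨m', n', hco, e1, e2⟩ := Int.exists_gcd_one g0
  obtain ⟨u, v, huv⟩ := Int.isCoprime_iff_gcd_eq_one.2 hco
  have g1 : (1 : ℝ) ≤ (Int.gcd m n : ℝ) := by exact_mod_cast g0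
  generalize Int.gcd m n = g at e1 e2 g1
  exact ⟨m', n', u, v, g, by linarith, g1, by simp only [lp, e1, e2]; push_cast; module⟩

/-- every admissible lattice has determinant at least `q` -/
theorem Chord.le_det (hC : Sym0 C) {q : ℝ} (h : Chord q C) {a b : Plane} (hd : 0 < dt a b)
    (hl : ∀ k : ℤ × ℤ, k ≠ (0, 0) → 1 ≤ gauge C (lp a b k)) : q ≤ dt a b := by
  by_contra hq
  push Not at hq
  have R1 := hl (1, 0) (by simp)
  obtain ⟨k, hk, hmin⟩ : ∃ k : ℤ × ℤ, k ≠ (0, 0) ∧ ∀ l : ℤ × ℤ, l ≠ (0, 0) →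
      gauge C (lp a b k) ≤ gauge C (lp a b l) := by
    generalize hR : gauge C (lp a b (1, 0)) = R at R1
    have R0 : 0 < R⁻¹ := inv_pos.2 (by linarith)
    have hf := finite_lp hC.cpt (p := R⁻¹ • a) (q := R⁻¹ • b) (by
      rw [dt_smul_left, dt_smul_right]; positivity)
    have e : ∀ k, lp (R⁻¹ • a) (R⁻¹ • b) k ∈ C ↔ gauge C (lp a b k) ≤ R := fun k => by
      rw [← hC.g_le, show lp (R⁻¹ • a) (R⁻¹ • b) k = R⁻¹ • lp a b k by simp only [lp]; module,
        hC.g_smul, abs_of_pos R0, inv_mul_le_iff₀ (by linarith), mul_one]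
    obtain ⟨k, hk, hmin⟩ := Set.exists_min_image {k : ℤ × ℤ | k ≠ (0, 0) ∧ gauge C (lp a b k) ≤ R}
      (fun k => gauge C (lp a b k)) (hf.subset fun k hk => (e k).2 hk.2) ⟨(1, 0), by simp, hR.le⟩
    refine ⟨k, hk.1, fun l hl => ?_⟩
    rcases le_total (gauge C (lp a b l)) R with c | c
    · exact hmin l ⟨hl, c⟩
    · exact hk.2.trans c
  obtain ⟨m, n, u, v, g, hb, g1, e⟩ := exists_prim a b hk
  have hk' : (m, n) ≠ (0, 0) := fun e => by
    rw [Prod.mk.injEq] at e
    rw [e.1, e.2] at hb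
    simp at hb
  have μ1 := hl _ hk'
  have hmin' : ∀ l : ℤ × ℤ, l ≠ (0, 0) → gauge C (lp a b (m, n)) ≤ gauge C (lp a b l) := by
    intro l hl
    have := hmin l hl
    rw [e, hC.g_smul, abs_of_pos (by linarith)] at this
    nlinarith
  have hdet : dt (lp a b (m, n)) (lp a b (-v, u)) = dt a b := by
    have : ((m : ℝ) * u + n * v) = 1 := by exact_mod_cast hb
    simp only [lp, dt_add_left, dt_add_right, dt_smul_left, dt_smul_right, dt_self, dt_swap a b]
    push_cast
    linear_combination dt a b * this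
  have hw : ∀ j : ℤ, gauge C (lp a b (m, n)) ≤
      gauge C (lp a b (-v, u) - (j : ℝ) • lp a b (m, n)) := fun j => by
    have e : lp a b (-v - j * m, u - j * n) = lp a b (-v, u) - (j : ℝ) • lp a b (m, n) := by
      simp only [lp]; push_cast; module
    rw [← e]
    refine hmin' _ fun e => ?_
    rw [Prod.mk.injEq] at e
    have : m * (u - j * n) - n * (-v - j * m) = 1 := by linarith
    rw [e.1, e.2] at this
    simp at this
  generalize lp a b (m, n) = z at *
  generalize lp a b (-v, u) = w at *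
  generalize hμ : gauge C z = μ at *
  have μ0 : 0 < μ := by linarith
  have gx : gauge C (μ⁻¹ • z) = 1 := by
    rw [hC.g_smul, hμ, abs_of_pos (inv_pos.2 μ0), inv_mul_cancel₀ μ0.ne']
  obtain ⟨y, y1, y2, y3⟩ := h _ gx
  have ez : z = μ • μ⁻¹ • z := by rw [smul_smul, mul_inv_cancel₀ μ0.ne', one_smul]
  generalize μ⁻¹ • z = x at *
  subst ez
  rw [dt_smul_left] at hdet
  have η0 : 0 < dt x y := by linarith
  obtain ⟨σ, τ, ew⟩ : ∃ σ τ : ℝ, w = μ • (σ • x + τ • y) :=
    ⟨μ⁻¹ * (dt w y / dt x y), μ⁻¹ * (dt x w / dt x y), by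
      rw [mul_smul, mul_smul, ← smul_add, ← eq_comb η0.ne', smul_smul, mul_inv_cancel₀ μ0.ne',
        one_smul]⟩
  rw [ew, dt_smul_right, dt_add_right, dt_smul_right, dt_smul_right, dt_self] at hdet
  have τ0 : 0 < τ := by
    by_contra hc
    push Not at hc
    nlinarith [mul_nonneg (mul_pos μ0 μ0).le (mul_nonneg (neg_nonneg.2 hc) η0.le)]
  have τ1 : τ < 1 := by
    by_contra hc
    push Not at hc
    have k1 : dt x y ≤ τ * dt x y := by nlinarith
    have k2 : 1 ≤ μ * μ := by nlinarith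
    nlinarith
  have k := hw ⌈σ⌉
  rw [ew, show μ • (σ • x + τ • y) - (⌈σ⌉ : ℝ) • μ • x = μ • ((σ - ⌈σ⌉) • x + τ • y) by module,
    hC.g_smul, abs_of_pos μ0, le_mul_iff_one_le_right μ0] at k
  have s1 := Int.le_ceil σ
  have s2 := Int.ceil_lt_add_one σ
  have g1 := hC.g_le.2 y1
  have g2 := hC.g_le.2 y2
  generalize (⌈σ⌉ : ℝ) = j at *
  rcases le_total (j - σ) τ with c | c
  · have := hC.g_comb (x := (σ - j) • x + τ • y) (u := y) (v := y - x) (a := τ - (j - σ))
      (b := j - σ) (by linarith) (by linarith) (by module)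
    nlinarith
  · have := hC.g_comb (x := (σ - j) • x + τ • y) (u := y - x) (v := -x) (a := τ)
      (b := j - σ - τ) τ0.le (by linarith) (by module)
    rw [hC.g_neg, gx] at this
    nlinarith

lemma ar_four (hC : IsCompact C) (a b : Plane) :
    ar C a b + ar C b (-a) + ar C (-a) (-b) + ar C (-b) a ≤ (volume C).toReal := by
  have d : ∀ a b c : Plane, Disjoint (sect C a b) (sect C (-a) c) := fun a b c =>
    Set.disjoint_left.2 fun z h1 h2 => by
      have k1 := h1.2.1
      have k2 := h2.2.1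
      rw [dt_neg_left] at k2
      linarith
  have m := measurableSet_sect hC
  have t := sect_ne_top hC
  unfold ar
  rw [← measureReal_union (sect_disj a b (-a)) (m _ _) (t _ _) (t _ _), ← measureReal_union
    (disjoint_union_left.2 ⟨d a b (-b), sect_disj b (-a) (-b)⟩) (m _ _)
    (measure_union_ne_top (t _ _) (t _ _)) (t _ _), ← measureReal_union
    (disjoint_union_left.2 ⟨disjoint_union_left.2 ⟨(sect_disj (-b) a b).symm, d b (-a) a⟩,
      sect_disj (-a) (-b) a⟩) (m _ _)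
    (measure_union_ne_top (measure_union_ne_top (t _ _) (t _ _)) (t _ _)) (t _ _)]
  exact measureReal_mono (union_subset (union_subset (union_subset inter_subset_left
    inter_subset_left) inter_subset_left) inter_subset_left) hC.measure_ne_top

lemma Sym0.hform_le (hC : Sym0 C) {u v t : Plane} (hu : u ∈ C) (hv : v ∈ C) (ht : t ∈ C)
    (h1 : 0 ≤ dt u v) (h2 : 0 ≤ dt v t) (h3 : 0 < dt u t) (h0 : v ≠ 0) :
    hform u v t ≤ (volume C).toReal := by
  have n : ∀ x y, dt (-x) (-y) = dt x y := fun x y => by rw [dt_neg_left, dt_neg_right, neg_neg]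
  have s1 := ar_split hC.cpt h3 h1 h2 h0
  have s2 := ar_split hC.cpt (a := -u) (b := -v) (c := -t) (by rwa [n]) (by rwa [n]) (by rwa [n])
    (neg_ne_zero.2 h0)
  have t1 := hC.ar_tri hu hv
  have t2 := hC.ar_tri hv ht
  have t3 := hC.ar_tri ht (hC.sym _ hu)
  have t4 := hC.ar_tri (hC.sym _ hu) (hC.sym _ hv)
  have t5 := hC.ar_tri (hC.sym _ hv) (hC.sym _ ht)
  have t6 := hC.ar_tri (hC.sym _ ht) hu
  rw [n] at t4 t5
  rw [dt_neg_right, ← dt_swap] at t3
  rw [dt_neg_left, ← dt_swap] at t6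
  have := ar_four hC.cpt u t
  unfold hform
  linarith

lemma Sym0.dt_le_gauge (hC : Sym0 C) {n : Plane} (h : ∀ z ∈ C, dt n z ≤ 1) (z : Plane) :
    dt n z ≤ gauge C z := by
  by_cases h0 : z = 0
  · rw [h0, dt_zero_right, gauge_zero]
  have g := hC.g_pos h0
  have := h ((gauge C z)⁻¹ • z) (hC.g_le.1 (by
    rw [hC.g_smul, abs_of_pos (inv_pos.2 g), inv_mul_cancel₀ g.ne']))
  rwa [dt_smul_right, inv_mul_le_iff₀ g, mul_one] at this

/-- three closed strips -/
def str3 (a b c : Plane) : Set Plane := {z | |dt a z| ≤ 1 ∧ |dt b z| ≤ 1 ∧ |dt c z| ≤ 1}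

lemma str3_sym0 {a b : Plane} (c : Plane) (hd : 0 < dt a b) : Sym0 (str3 a b c) := by
  have cl : ∀ a : Plane, IsClosed {z | |dt a z| ≤ 1} := fun a =>
    isClosed_le (by unfold dt; fun_prop) continuous_const
  have cv : ∀ a : Plane, Convex ℝ {z | |dt a z| ≤ 1} := fun a u hu v hv s t hs ht e => by
    rw [mem_ofPred_eq, abs_le] at hu hv ⊢
    rw [dt_add_right, dt_smul_right, dt_smul_right]
    constructor <;> nlinarith
  refine ⟨?_, (cv a).inter ((cv b).inter (cv c)), fun z hz => ?_, (1 + ‖a‖ + ‖b‖ + ‖c‖)⁻¹,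
    by positivity, fun z hz => ?_⟩
  · refine (isCompact_closedBall (0 : Plane) ((‖a‖ + ‖b‖) / dt a b)).of_isClosed_subset
      ((cl a).inter ((cl b).inter (cl c))) fun z hz => ?_
    rw [mem_closedBall_zero_iff, eq_comb hd.ne' z]
    refine (norm_add_le _ _).trans ?_
    rw [norm_smul, norm_smul, Real.norm_eq_abs, Real.norm_eq_abs, abs_div, abs_div, abs_of_pos hd,
      dt_swap b z, abs_neg, div_mul_eq_mul_div, div_mul_eq_mul_div, ← add_div]
    refine div_le_div_of_nonneg_right ?_ hd.le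
    nlinarith [hz.1, hz.2.1, norm_nonneg a, norm_nonneg b]
  · simpa only [str3, mem_ofPred_eq, dt_neg_right, abs_neg] using hz
  · rw [mem_closedBall_zero_iff, ← one_div, le_div_iff₀ (by positivity)] at hz
    have := norm_nonneg z
    refine ⟨(abs_dt_le _ _).trans ?_, (abs_dt_le _ _).trans ?_, (abs_dt_le _ _).trans ?_⟩ <;>
      nlinarith [norm_nonneg a, norm_nonneg b, norm_nonneg c]

lemma Chord.core (hC : Sym0 C) {q : ℝ} (h : Chord q C) {P : Set Plane} (hP : Sym0 P) (hs : C ⊆ P)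
    {u v t : Plane} (hu : u ∈ P) (hv : v ∈ P) (ht : t ∈ P) (h1 : 0 ≤ dt u v) (h2 : 0 ≤ dt v t)
    (h3 : 0 < dt u t) (h0 : v ≠ 0) (g1 : 2 ≤ gauge P (u + v)) (g2 : 2 ≤ gauge P (v + t))
    (g3 : 2 ≤ gauge P (t - u)) : 4 * q ≤ (volume P).toReal := by
  have k : ∀ a ∈ P, ∀ b ∈ P, 2 ≤ gauge P (a + b) → gauge P ((1 / 2 : ℝ) • (a + b)) = 1 := by
    intro a ha b hb g
    have := hP.g_add a b
    rw [hP.g_smul, abs_of_pos (by norm_num)]
    linarith [hP.g_le.2 ha, hP.g_le.2 hb]
  have e : dt ((1 / 2 : ℝ) • (u + v)) ((1 / 2 : ℝ) • (v + t)) = hform u v t / 4 := by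
    rw [dt_smul_left, dt_smul_right, dt_hform]; ring
  have := h.le_det hC (a := (1 / 2 : ℝ) • (u + v)) (b := (1 / 2 : ℝ) • (v + t))
    (by rw [e, hform]; linarith) fun l hl => (hP.lat_low (k u hu v hv g1) (k v hv t ht g2) (by
      rw [show (1 / 2 : ℝ) • (v + t) - (1 / 2 : ℝ) • (u + v) = (1 / 2 : ℝ) • (t + -u) by module]
      exact k t ht _ (hP.sym _ hu) (by rwa [← sub_eq_add_neg])) hl).trans
      (gauge_mono (absorbent_nhds_zero hC.nhds) hs _)
  linarith [hP.hform_le hu hv ht h1 h2 h3 h0]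

lemma Chord.strA (hC : Sym0 C) {q : ℝ} (h : Chord q C) {a b : Plane} (hd : 0 < dt a b) {α β : ℝ}
    (a0 : 0 ≤ α) (a1 : α ≤ 1) (b0 : 0 ≤ β) (b1 : β ≤ 1) (hs : C ⊆ str3 a b (α • a + β • b)) :
    4 * q ≤ (volume (str3 a b (α • a + β • b))).toReal := by
  have hP := str3_sym0 (α • a + β • b) hd
  let V : ℝ → ℝ → Plane := fun s t => (dt a b)⁻¹ • (s • b - t • a)
  have f1 : ∀ s t, dt a (V s t) = s := fun s t => by
    simp only [V, dt_smul_right, dt_sub_right, dt_self]; field_simp; ring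
  have f2 : ∀ s t, dt b (V s t) = t := fun s t => by
    simp only [V, dt_smul_right, dt_sub_right, dt_self, dt_swap a b]; field_simp; ring
  have f3 : ∀ s t, dt (α • a + β • b) (V s t) = α * s + β * t := fun s t => by
    rw [dt_add_left, dt_smul_left, dt_smul_left, f1, f2]
  have f4 : ∀ s t s' t', dt (V s t) (V s' t') = (s * t' - t * s') / dt a b := fun s t s' t' => by
    simp only [V, dt_smul_left, dt_smul_right, dt_sub_left, dt_sub_right, dt_self, dt_swap a b]
    field_simp; ring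
  have mem : ∀ s t, |s| ≤ 1 → |t| ≤ 1 → |α * s + β * t| ≤ 1 → V s t ∈ str3 a b (α • a + β • b) :=
    fun s t h1 h2 h3 => ⟨by rwa [f1], by rwa [f2], by rwa [f3]⟩
  have l1 := hP.dt_le_gauge (n := a) fun z hz => (le_abs_self _).trans hz.1
  have l2 := hP.dt_le_gauge (n := b) fun z hz => (le_abs_self _).trans hz.2.1
  have l3 := hP.dt_le_gauge (n := α • a + β • b) fun z hz => (le_abs_self _).trans hz.2.2
  have nz : ∀ t, V 1 t ≠ 0 := fun t e => by
    have := f1 1 t
    rw [e, dt_zero_right] at this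
    norm_num at this
  have m1 := mem 1 (-1) (by simp) (by simp) (abs_le.2 ⟨by linarith, by linarith⟩)
  rcases le_or_gt (α + β) 1 with c | c
  · have m2 := mem 1 1 (by simp) (by simp) (abs_le.2 ⟨by linarith, by linarith⟩)
    refine h.core hC hP hs m1 m2 m2 (by rw [f4]; positivity) (by rw [dt_self])
      (by rw [f4]; positivity) (nz 1) (le_trans ?_ (l1 _)) (le_trans ?_ (l1 _))
      (le_trans ?_ (l2 _))
    · rw [dt_add_right, f1, f1]; norm_num
    · rw [dt_add_right, f1]; norm_num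
    · rw [dt_sub_right, f2, f2]; norm_num
  · have α0 : 0 < α := by linarith
    have β0 : 0 < β := by linarith
    have s0 : 0 ≤ (1 - α) / β := div_nonneg (by linarith) b0
    have s1 : (1 - α) / β ≤ 1 := (div_le_one β0).2 (by linarith)
    have t0 : 0 ≤ (1 - β) / α := div_nonneg (by linarith) a0
    have t1 : (1 - β) / α ≤ 1 := (div_le_one α0).2 (by linarith)
    have e1 : α * 1 + β * ((1 - α) / β) = 1 := by field_simp; ring
    have e2 : α * ((1 - β) / α) + β * 1 = 1 := by field_simp; ring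
    generalize (1 - α) / β = s at *
    generalize (1 - β) / α = t at *
    refine h.core hC hP hs m1 (mem 1 s (by simp) (abs_le.2 ⟨by linarith, s1⟩) (by rw [e1, abs_one]))
      (mem t 1 (abs_le.2 ⟨by linarith, t1⟩) (by simp) (by rw [e2, abs_one]))
      (by rw [f4]; exact div_nonneg (by linarith) hd.le)
      (by rw [f4]; exact div_nonneg (by nlinarith) hd.le)
      (by rw [f4]; exact div_pos (by linarith) hd) (nz s) (le_trans ?_ (l1 _))
      (le_trans ?_ (l3 _)) (le_trans ?_ (l2 _))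
    · rw [dt_add_right, f1, f1]; norm_num
    · rw [dt_add_right, f3, f3, e1, e2]; norm_num
    · rw [dt_sub_right, f2, f2]; norm_num

lemma str3_neg1 (a b c : Plane) : str3 (-a) b c = str3 a b c := by
  simp only [str3, dt_neg_left, abs_neg]

lemma str3_swap (a b c : Plane) : str3 b a c = str3 a b c := by
  ext z; simp only [str3, mem_ofPred_eq]; tauto

lemma str3_rot (a b c : Plane) : str3 b c a = str3 a b c := by
  ext z; simp only [str3, mem_ofPred_eq]; tauto

lemma Chord.strB (hC : Sym0 C) {q : ℝ} (h : Chord q C) {a b c : Plane} (hd : dt a b ≠ 0)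
    (h1 : |dt c b| ≤ |dt a b|) (h2 : |dt a c| ≤ |dt a b|) (hs : C ⊆ str3 a b c) :
    4 * q ≤ (volume (str3 a b c)).toReal := by
  have k1 : ∀ a b : Plane, dt a b ≠ 0 → ∀ α β : ℝ, 0 ≤ α → α ≤ 1 → 0 ≤ β → β ≤ 1 →
      C ⊆ str3 a b (α • a + β • b) → 4 * q ≤ (volume (str3 a b (α • a + β • b))).toReal := by
    intro a b hd α β a0 a1 b0 b1 hs
    rcases hd.lt_or_gt with c | c
    · rw [← str3_swap, add_comm] at hs ⊢
      exact h.strA hC (by rw [dt_swap]; linarith) b0 b1 a0 a1 hs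
    · exact h.strA hC c a0 a1 b0 b1 hs
  have k2 : ∀ a b : Plane, dt a b ≠ 0 → ∀ α β : ℝ, |α| ≤ 1 → 0 ≤ β → β ≤ 1 →
      C ⊆ str3 a b (α • a + β • b) → 4 * q ≤ (volume (str3 a b (α • a + β • b))).toReal := by
    intro a b hd α β a1 b0 b1 hs
    rw [abs_le] at a1
    rcases le_total 0 α with a0 | a0
    · exact k1 a b hd α β a0 a1.2 b0 b1 hs
    · rw [← str3_neg1, show α • a = (-α) • (-a) by module] at hs ⊢
      exact k1 _ b (by rwa [dt_neg_left, neg_ne_zero]) _ β (by linarith) (by linarith) b0 b1 hs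
  have a1 : |dt c b / dt a b| ≤ 1 := by rw [abs_div]; exact div_le_one_of_le₀ h1 (abs_nonneg _)
  have b1 : |dt a c / dt a b| ≤ 1 := by rw [abs_div]; exact div_le_one_of_le₀ h2 (abs_nonneg _)
  rw [eq_comb hd c] at hs ⊢
  generalize dt c b / dt a b = α at *
  generalize dt a c / dt a b = β at *
  rw [abs_le] at b1
  rcases le_total 0 β with b0 | b0
  · exact k2 a b hd α β a1 b0 b1.2 hs
  · rw [← str3_swap, ← str3_neg1, str3_swap, show β • b = (-β) • (-b) by module] at hs ⊢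
    exact k2 a _ (by rwa [dt_neg_right, neg_ne_zero]) α _ a1 (by linarith) (by linarith) hs

lemma Chord.strC (hC : Sym0 C) {q : ℝ} (h : Chord q C) {a b c : Plane}
    (hd : dt a b ≠ 0 ∨ dt b c ≠ 0 ∨ dt c a ≠ 0) (hs : C ⊆ str3 a b c) :
    4 * q ≤ (volume (str3 a b c)).toReal := by
  have e : ∀ u v, |dt u v| = |dt v u| := fun u v => by rw [dt_swap, abs_neg]
  have key : ∀ a b c : Plane, (dt a b ≠ 0 ∨ dt b c ≠ 0 ∨ dt c a ≠ 0) → C ⊆ str3 a b c →
      |dt b c| ≤ |dt a b| → |dt c a| ≤ |dt a b| → 4 * q ≤ (volume (str3 a b c)).toReal := by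
    intro a b c hd hs h1 h2
    refine h.strB hC (fun z => ?_) (by rwa [e]) (by rwa [e]) hs
    rw [z, abs_zero, abs_nonpos_iff] at h1 h2
    tauto
  rcases le_total |dt b c| |dt a b| with c1 | c1
  · rcases le_total |dt c a| |dt a b| with c2 | c2
    · exact key a b c hd hs c1 c2
    · rw [← str3_rot, ← str3_rot] at hs ⊢
      exact key c a b (by tauto) hs c2 (c1.trans c2)
  · rcases le_total |dt c a| |dt b c| with c2 | c2
    · rw [← str3_rot] at hs ⊢
      exact key b c a (by tauto) hs c2 c1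
    · rw [← str3_rot, ← str3_rot] at hs ⊢
      exact key c a b (by tauto) hs (c1.trans c2) c2

lemma str3_sym0' {a b c : Plane} (hd : dt a b ≠ 0 ∨ dt b c ≠ 0 ∨ dt c a ≠ 0) :
    Sym0 (str3 a b c) := by
  have k : ∀ a b c : Plane, dt a b ≠ 0 → Sym0 (str3 a b c) := fun a b c h => by
    rcases h.lt_or_gt with h | h
    · rw [← str3_swap]; exact str3_sym0 c (by rw [dt_swap]; linarith)
    · exact str3_sym0 c h
  rcases hd with h | h | h
  · exact k a b c h
  · rw [← str3_rot]; exact k b c a h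
  · rw [← str3_rot, ← str3_rot]; exact k c a b h

lemma Chord.strD (hC : Sym0 C) {q : ℝ} (h : Chord q C) {a b c : Plane}
    (hd : dt a b ≠ 0 ∨ dt b c ≠ 0 ∨ dt c a ≠ 0) (hs : C ⊆ str3 a b c) :
    ENNReal.ofReal (4 * q) ≤ volume {z | |dt a z| < 1 ∧ |dt b z| < 1 ∧ |dt c z| < 1} := by
  have hP := str3_sym0' hd
  refine ((ENNReal.ofReal_le_iff_le_toReal hP.cpt.measure_ne_top).2 (h.strC hC hd hs)).trans ?_
  rw [← measure_interior_of_null_frontier (hP.cvx.addHaar_frontier volume)]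
  refine measure_mono fun z hz => ?_
  have g : gauge (str3 a b c) z < 1 := interior_subset_gauge_lt_one _ hz
  have k : ∀ n : Plane, (∀ z ∈ str3 a b c, |dt n z| ≤ 1) → |dt n z| < 1 := fun n hn => by
    have l := hP.dt_le_gauge (n := n) fun z hz => (le_abs_self _).trans (hn z hz)
    have l1 := l z
    have l2 := l (-z)
    rw [dt_neg_right, hP.g_neg] at l2
    exact abs_lt.2 ⟨by linarith, by linarith⟩
  exact ⟨k a fun _ h => h.1, k b fun _ h => h.2.1, k c fun _ h => h.2.2⟩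

lemma Chord.hexS (hC : Sym0 C) {q : ℝ} (h : Chord q C) (a b c : ℝ) :
    ENNReal.ofReal (4 * q) ≤ volume (hexS (supp C) a b c) := by
  have sp := hC.isSupp.pos
  let n : ℝ → Plane := fun θ => (supp C θ)⁻¹ • pt (sin θ) (-cos θ)
  have e : ∀ θ z, |dt (n θ) z| = |ip z θ| / supp C θ := fun θ z => by
    rw [show dt (n θ) z = ip z θ / supp C θ by
      simp only [n, dt_smul_left]; simp only [dt, ip, pt_zero, pt_one]; ring, abs_div,
      abs_of_pos (sp θ)]
  have le : ∀ θ, ∀ z ∈ C, |dt (n θ) z| ≤ 1 := fun θ z hz => by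
    have := le_supp hC.cpt (hC.sym z hz) θ
    rw [ip_neg] at this
    rw [e, div_le_one (sp θ)]
    exact abs_le.2 ⟨by linarith, le_supp hC.cpt hz θ⟩
  have lt : ∀ θ z, |dt (n θ) z| < 1 → |ip z θ| < supp C θ := fun θ z k => by
    rwa [e, div_lt_one (sp θ)] at k
  by_cases hd : dt (n a) (n b) ≠ 0 ∨ dt (n b) (n c) ≠ 0 ∨ dt (n c) (n a) ≠ 0
  · exact (h.strD hC hd fun z hz => ⟨le a z hz, le b z hz, le c z hz⟩).trans
      (measure_mono fun z hz => ⟨lt _ _ hz.1, lt _ _ hz.2.1, lt _ _ hz.2.2⟩)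
  push Not at hd
  have d : dt (n a) (n (a + π / 2)) ≠ 0 := by
    have : dt (n a) (n (a + π / 2)) = (supp C a)⁻¹ * (supp C (a + π / 2))⁻¹ := by
      simp only [n, dt_smul_left, dt_smul_right]
      simp only [dt, pt_zero, pt_one, sin_add_pi_div_two, cos_add_pi_div_two]
      linear_combination (supp C a)⁻¹ * (supp C (a + π / 2))⁻¹ * sin_sq_add_cos_sq a
    rw [this]
    exact (mul_pos (inv_pos.2 (sp _)) (inv_pos.2 (sp _))).ne'
  have par : ∀ θ, dt (n a) (n θ) = 0 → ∀ z, |dt (n a) z| < 1 → |dt (n θ) z| < 1 := by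
    intro θ h0 z hz
    obtain ⟨t, ht⟩ := exists_smul_of_dt (fun e => d (by rw [e, dt_zero_left])) h0
    obtain ⟨y, hy, e'⟩ := exists_supp hC.cpt hC.ne a
    have k := le θ y hy
    rw [ht, dt_smul_left, abs_mul] at k ⊢
    rw [e, e', abs_of_pos (sp a), div_self (sp a).ne', mul_one] at k
    nlinarith [abs_nonneg t, abs_nonneg (dt (n a) z)]
  exact (h.strD hC (c := n (a + π / 2)) (Or.inl d)
    fun z hz => ⟨le a z hz, le _ z hz, le _ z hz⟩).trans (measure_mono fun z hz =>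
      ⟨lt _ _ hz.1, lt _ _ (par b hd.1 z hz.1),
        lt _ _ (par c (by rw [dt_swap, hd.2.2, neg_zero]) z hz.1)⟩)

/-- the packing density of a symmetric body with long chords -/
theorem Sym0.pd_le_of_chord (hC : Sym0 C) {q : ℝ} (hq : 0 < q)
    (h : ∀ x, gauge C x = 1 → ∃ y, y ∈ C ∧ y - x ∈ C ∧ q ≤ dt x y) :
    pd C ≤ ENNReal.ofReal ((volume C).toReal / (4 * q)) :=
  hC.pd_le (by positivity) (Chord.hexS hC h)

end Pool.Agent.Lib.MP_fb520c_co
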