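import Pool.Agent.Lib.MP_fb520c_co.R.Order

/-! The boundary of a critical body, parametrised by the direction of the regular part of the
inscribed hexagon, and the reduction of the density conditions to a critical body. -/

set_option autoImplicit false

open MeasureTheory Set Real Filter Topology Metric
open scoped ENNReal

noncomputable section

namespace Pool.Agent.Lib.MP_fb520c_co

variable {C : Set Plane} {Q : ℝ}

/-- `x t` is the first vertex of the hexagon whose regular part is `pol (ρ t) t` -/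
structure Curve (Q : ℝ) (C : Set Plane) (x : ℝ → Plane) (ρ : ℝ → ℝ) : Prop where
  crit : Crit Q C
  hex : ∀ t, Hex C (x t) (x (t + π / 3))
  add : ∀ t, x (t + π / 3 + π / 3) = x (t + π / 3) - x t
  pos : ∀ t, 0 < ρ t
  dir : ∀ t, aOf (x t) (x (t + π / 3)) = pol (ρ t) t

theorem Crit.exists_curve (hC : Crit Q C) : ∃ x ρ, Curve Q C x ρ := by
  choose x y H ρ hρ e using hC.exists_dir
  have k : ∀ t, x (t + π / 3) = y t ∧ y (t + π / 3) = y t - x t := fun t =>
    hC.unique ((H t).next hC.sym0) (H (t + π / 3)) (hρ t) (hρ _) (by rw [aOf_next, e, rot_pol]) (e _)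
  exact ⟨x, ρ, hC, fun t => (k t).1 ▸ H t, fun t => by rw [(k _).1, (k t).2, (k t).1], hρ,
    fun t => by rw [(k t).1, e]⟩

namespace Curve

variable {x : ℝ → Plane} {ρ : ℝ → ℝ}

lemma g (h : Curve Q C x ρ) (t : ℝ) : gauge C (x t) = 1 := (h.hex t).g0

lemma mem (h : Curve Q C x ρ) (t : ℝ) : x t ∈ C := h.crit.sym0.g_le.1 (h.g t).le

lemma q (h : Curve Q C x ρ) (t : ℝ) : dt (x t) (x (t + π / 3)) = Q := h.crit.q (h.hex t)

lemma Q_pos (h : Curve Q C x ρ) : 0 < Q := h.q 0 ▸ (h.hex 0).pos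

lemma add_pi (h : Curve Q C x ρ) (t : ℝ) : x (t + π) = -x t := by
  rw [show t + π = t + π / 3 + π / 3 + π / 3 by ring, h.add, h.add]; abel

/-- every inscribed hexagon is on the curve -/
lemma surj (h : Curve Q C x ρ) {u v : Plane} (k : Hex C u v) :
    ∃ t, x t = u ∧ x (t + π / 3) = v := by
  obtain ⟨r, t, r0, -, -, e0, e1⟩ := exists_angle (aOf u v 0) (aOf u v 1) (by
    by_contra hc
    push Not at hc
    have := aOf_norm u v
    rw [norm_sq_eq, hc.1, hc.2] at this
    have h3 : 0 < 2 * √3 / 3 * dt u v := mul_pos (by positivity) k.pos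
    nlinarith [sq_nonneg ‖u - aOf u v‖])
  exact ⟨t, h.crit.unique k (h.hex t) r0 (h.pos t) (plane_ext e0 e1) (h.dir t)⟩

lemma rho_add (h : Curve Q C x ρ) (t : ℝ) : ρ (t + π / 3) = ρ t := by
  have e := h.dir (t + π / 3)
  rw [h.add, aOf_next, h.dir, rot_pol] at e
  have := congrArg norm e
  rwa [norm_pol, norm_pol, abs_of_pos (h.pos _), abs_of_pos (h.pos _), eq_comm] at this

lemma b_add (h : Curve Q C x ρ) (t : ℝ) :
    x (t + π / 3) - pol (ρ (t + π / 3)) (t + π / 3) = rot (-(π / 3)) (x t - pol (ρ t) t) := by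
  rw [← h.dir, ← h.dir, h.add, bOf_next]

lemma rho_sq (h : Curve Q C x ρ) (t : ℝ) :
    ρ t ^ 2 = 2 * √3 / 3 * Q + ‖x t - pol (ρ t) t‖ ^ 2 := by
  have := aOf_norm (x t) (x (t + π / 3))
  rw [h.dir, h.q, norm_pol, sq_abs] at this
  linarith

lemma before (h : Curve Q C x ρ) {s t : ℝ} (h0 : s ≤ t) (h1 : t ≤ s + π / 3) :
    Before (x s) (x (s + π / 3)) (x t) (x (t + π / 3)) := by
  rcases h1.lt_or_eq with h1 | h1
  · exact h.crit.order_pol (h.hex s) (h.hex t) (h.pos s) (h.pos t) (h.dir s) (h.dir t) h0 h1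
  · have := (h.crit.order_pol (h.hex s) (h.hex s) (h.pos s) (h.pos s) (h.dir s) (h.dir s) le_rfl
      (by linarith [pi_pos])).swap
    rwa [h1, h.add]

/-- the points of the arc lie in the sector of its ends -/
lemma cone (h : Curve Q C x ρ) {s t : ℝ} (h0 : s ≤ t) (h1 : t ≤ s + π / 3) :
    ∃ p r : ℝ, 0 ≤ p ∧ 0 ≤ r ∧ p ≤ 1 ∧ r ≤ 1 ∧ 1 ≤ p + r ∧ x t = p • x s + r • x (s + π / 3) := by
  have b := h.before h0 h1
  have hd := (h.hex s).pos
  have e := eq_comb hd.ne' (x t)
  have p0 := div_nonneg b.h1 hd.le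
  have r0 := div_nonneg b.h0 hd.le
  obtain ⟨k1, k2, k3⟩ := (h.hex s).low h.crit.sym0 p0 r0 e (h.g t)
  exact ⟨_, _, p0, r0, k1, k2, k3, e⟩

lemma dt_nonneg (h : Curve Q C x ρ) {s t : ℝ} (h0 : s ≤ t) (h1 : t ≤ s + π) :
    0 ≤ dt (x s) (x t) := by
  have hq := h.q s
  have hQ := h.Q_pos
  rcases le_total t (s + π / 3) with k | k
  · exact (h.before h0 k).h0
  rcases le_total t (s + π / 3 + π / 3) with k' | k'
  · obtain ⟨p, r, p0, r0, -, -, -, e⟩ := h.cone k k'
    rw [e, h.add, dt_add_right, dt_smul_right, dt_smul_right, dt_sub_right, dt_self, hq]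
    positivity
  · obtain ⟨p, r, p0, r0, -, -, -, e⟩ := h.cone k' (by linarith)
    rw [h.add (s + π / 3), h.add s] at e
    simp only [e, dt_add_right, dt_smul_right, dt_sub_right, dt_self, hq]
    nlinarith

lemma tri_pi (h : Curve Q C x ρ) {s t u : ℝ} (h0 : s ≤ t) (h1 : t ≤ u) (h2 : u ≤ s + π) :
    dt (x s) (x u) ≤ dt (x s) (x t) + dt (x t) (x u) := by
  have a := h.dt_nonneg h0 (by linarith)
  have b := h.dt_nonneg h1 (by linarith)
  have c := h.dt_nonneg (h0.trans h1) h2
  have := h.crit.sym0.g_comb (x := dt (x s) (x u) • x t) (u := x s) (v := x u) b a (plane_ext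
    (by simp only [dt, PiLp.add_apply, PiLp.smul_apply, smul_eq_mul]; ring)
    (by simp only [dt, PiLp.add_apply, PiLp.smul_apply, smul_eq_mul]; ring))
  rw [h.crit.sym0.g_smul, h.g, h.g, h.g, abs_of_nonneg c] at this
  linarith

/-- convexity: three points in cyclic order are positively oriented -/
theorem tri (h : Curve Q C x ρ) {s t u : ℝ} (h0 : s ≤ t) (h1 : t ≤ u) (h2 : u ≤ s + 2 * π) :
    0 ≤ dt (x t - x s) (x u - x t) := by
  have e : dt (x t - x s) (x u - x t) = dt (x s) (x t) + dt (x t) (x u) + dt (x u) (x s) := by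
    simp only [dt, PiLp.sub_apply]; ring
  have p : x (s + π + π) = x s := by rw [h.add_pi, h.add_pi, neg_neg]
  rw [e]
  rcases le_total u (s + π) with k | k
  · linarith [h.tri_pi h0 h1 k, dt_swap (x s) (x u)]
  rcases le_total (s + π) t with k1 | k1
  · have := h.tri_pi (s := t) (t := u) (u := s + π + π) h1 (by linarith) (by linarith)
    rw [p] at this
    linarith [dt_swap (x s) (x t)]
  rcases le_total (t + π) u with k2 | k2
  · have := h.tri_pi (s := u) (t := s + π + π) (u := t + π + π) (by linarith) (by linarith)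
      (by linarith)
    rw [p, h.add_pi, h.add_pi, neg_neg] at this
    linarith [dt_swap (x t) (x u)]
  · have := h.dt_nonneg (s := u) (t := s + π + π) (by linarith) (by linarith)
    rw [p] at this
    linarith [h.dt_nonneg h0 k1, h.dt_nonneg h1 k2]

lemma area_arc (h : Curve Q C x ρ) {t : ℕ → ℝ} (ht : Monotone t) (n : ℕ)
    (hn : t n ≤ t 0 + π / 3) :
    ∑ j ∈ Finset.range n, dt (x (t j)) (x (t (j + 1))) / 2 ≤ ar C (x (t 0)) (x (t n)) ∧
      (dt (x (t 0)) (x (t n)) = 0 → ∑ j ∈ Finset.range n, dt (x (t j)) (x (t (j + 1))) / 2 = 0) := by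
  have := pi_pos
  induction n with
  | zero => exact ⟨by simpa using ar_nonneg _ _, fun _ => by simp⟩
  | succ n ih =>
    have m0 := ht (Nat.zero_le n)
    have m1 := ht (Nat.le_succ n)
    obtain ⟨i1, i2⟩ := ih (m1.trans hn)
    have a := h.dt_nonneg m0 (by linarith)
    have b := h.dt_nonneg m1 (by linarith)
    have z : dt (x (t 0)) (x (t (n + 1))) = 0 →
        ∑ j ∈ Finset.range (n + 1), dt (x (t j)) (x (t (j + 1))) / 2 = 0 := by
      intro c
      obtain ⟨p, r, p0, r0, -, -, s, e⟩ := h.cone (m0.trans m1) hn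
      have k1 : dt (x (t (n + 1))) (x (t 0 + π / 3) - x (t 0)) = (p + r) * Q := by
        rw [e, dt_add_left, dt_smul_left, dt_smul_left, dt_next, dt_sub_right, dt_self, h.q]; ring
      have k2 : dt (x (t 0)) (x (t 0 + π / 3) - x (t 0)) = Q := by
        rw [dt_sub_right, dt_self, h.q]; ring
      have k3 : dt (x (t 0)) (x (t (n + 1))) * dt (x (t n)) (x (t 0 + π / 3) - x (t 0)) =
          dt (x (t n)) (x (t (n + 1))) * dt (x (t 0)) (x (t 0 + π / 3) - x (t 0)) +
          dt (x (t 0)) (x (t n)) * dt (x (t (n + 1))) (x (t 0 + π / 3) - x (t 0)) := by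
        simp only [dt]; ring
      rw [c, k1, k2, zero_mul] at k3
      have hQ := h.Q_pos
      have q1 := mul_nonneg b hQ.le
      have q3 : 0 < (p + r) * Q := mul_pos (by linarith) hQ
      have q2 := mul_nonneg a q3.le
      rw [Finset.sum_range_succ, i2 ((mul_eq_zero.1 (by linarith)).resolve_right q3.ne'),
        (mul_eq_zero.1 (show dt (x (t n)) (x (t (n + 1))) * Q = 0 by linarith)).resolve_right
          hQ.ne']
      simp
    refine ⟨?_, z⟩
    rcases (h.dt_nonneg (m0.trans m1) (by linarith)).eq_or_lt with c | c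
    · rw [z c.symm]; exact ar_nonneg _ _
    · rw [Finset.sum_range_succ]
      have s1 := ar_split h.crit.sym0.cpt c a b fun e => by
        have := h.g (t n); rw [e, gauge_zero] at this; norm_num at this
      linarith [h.crit.sym0.ar_tri (h.mem (t n)) (h.mem (t (n + 1)))]

/-- the area of the inscribed polygon -/
theorem area (h : Curve Q C x ρ) {t : ℕ → ℝ} (ht : Monotone t) {n : ℕ} (hn : t n = t 0 + π / 3) :
    ∑ j ∈ Finset.range n, (dt (x (t j)) (x (t (j + 1))) +
      dt (x (t j + π / 3)) (x (t (j + 1) + π / 3)) +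
      dt (x (t j + π / 3 + π / 3)) (x (t (j + 1) + π / 3 + π / 3))) ≤ (volume C).toReal := by
  have hS := h.crit.sym0
  have key : ∀ c : ℝ, ∑ j ∈ Finset.range n, dt (x (t j + c)) (x (t (j + 1) + c)) / 2 ≤
      ar C (x (t 0 + c)) (x (t 0 + c + π / 3)) := fun c => by
    have := (h.area_arc (t := fun j => t j + c) (fun a b k => by linarith [ht k]) n
      (by rw [hn]; linarith)).1
    rwa [hn, add_right_comm] at this
  have neg : ∀ c : ℝ, ∑ j ∈ Finset.range n, dt (x (t j + c)) (x (t (j + 1) + c)) / 2 ≤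
      ar C (-x (t 0 + c)) (-x (t 0 + c + π / 3)) := fun c => by
    have := key (c + π)
    simp only [← add_assoc, add_right_comm _ π, h.add_pi, dt_neg_left, dt_neg_right, neg_neg]
      at this
    exact this
  have k0 := key 0
  have k1 := key (π / 3)
  have k2 := key (π / 3 + π / 3)
  have k3 := neg 0
  have k4 := neg (π / 3)
  have k5 := neg (π / 3 + π / 3)
  have H := h.hex (t 0)
  have e1 := h.add (t 0)
  have e2 := h.add (t 0 + π / 3)
  simp only [add_zero, ← add_assoc] at k0 k1 k2 k3 k4 k5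
  rw [e1, sub_sub_cancel_left] at e2
  rw [e1] at k1 k4
  rw [e2, e1] at k2 k5
  rw [neg_neg] at k5
  simp only [← Finset.sum_div] at k0 k1 k2 k3 k4 k5
  simp only [Finset.sum_add_distrib]
  generalize x (t 0) = c0 at *
  generalize x (t 0 + π / 3) = c1 at *
  have hq := H.pos
  have nz : ∀ {z}, gauge C z = 1 → z ≠ 0 := fun h e => by rw [e, gauge_zero] at h; norm_num at h
  have n : ∀ x y, dt (-x) (-y) = dt x y := fun x y => by rw [dt_neg_left, dt_neg_right, neg_neg]
  have q1 : dt c1 (c1 - c0) = dt c0 c1 := dt_next _ _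
  have q2 : dt (c1 - c0) (-c0) = dt c0 c1 := by simp only [dt, PiLp.sub_apply, PiLp.neg_apply]; ring
  have q3 : dt c0 (c1 - c0) = dt c0 c1 := by simp only [dt, PiLp.sub_apply]; ring
  have q4 : dt (c1 - c0) (-c1) = dt c0 c1 := by simp only [dt, PiLp.sub_apply, PiLp.neg_apply]; ring
  have q5 : dt (-c1) c0 = dt c0 c1 := by simp only [dt, PiLp.neg_apply]; ring
  have q6 : dt (-(c1 - c0)) c0 = dt c0 c1 := by
    simp only [dt, PiLp.sub_apply, PiLp.neg_apply]; ring
  have s1 := ar_split hS.cpt (q3 ▸ hq) hq.le (q1 ▸ hq.le) (nz H.g1)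
  have s2 := ar_split hS.cpt (b := -c0) (q4 ▸ hq) (q2 ▸ hq.le) (by rw [n]; exact hq.le)
    (nz (by rw [hS.g_neg, H.g0]))
  have s3 := ar_split hS.cpt (b := -(c1 - c0)) (q5 ▸ hq) (by rw [n, q1]; exact hq.le)
    (q6 ▸ hq.le) (nz (by rw [hS.g_neg, H.g2]))
  have s := ar_three hS.cpt c0 (c1 - c0) (-c1)
  linarith

end Curve

/-- a critical body with bounded area and bounded inscribed hexagons -/
structure Bad (Q A h : ℝ) (C : Set Plane) : Prop where
  crit : Crit Q C
  area : (volume C).toReal ≤ A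
  hexa : ∀ u ∈ C, ∀ v ∈ C, ∀ w ∈ C, hform u v w ≤ h

lemma Sym0.le_pd_lat (hC : Sym0 C) {x y : Plane} (hd : 0 < dt x y)
    (h : ∀ k : ℤ × ℤ, k ≠ (0, 0) → 1 ≤ gauge C (lp x y k)) :
    ENNReal.ofReal ((volume C).toReal / (4 * dt x y)) ≤ pd C := by
  have e : dt ((2 : ℝ) • x) ((2 : ℝ) • y) = 4 * dt x y := by rw [dt_smul_left, dt_smul_right]; ring
  have hd' : 0 < dt ((2 : ℝ) • x) ((2 : ℝ) • y) := by rw [e]; positivity
  have hin : ∀ k z, z ∈ interior (tr ((2 : ℝ) • x) ((2 : ℝ) • y) C k) →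
      gauge C (z - lp ((2 : ℝ) • x) ((2 : ℝ) • y) k) < 1 := by
    intro k z hz
    rw [tr_eq, ← IsometryEquiv.coe_toHomeomorph, ← Homeomorph.image_interior] at hz
    obtain ⟨u, hu, rfl⟩ := hz
    have : gauge C u < 1 := interior_subset_gauge_lt_one C hu
    simpa using this
  rw [← e]
  refine (lat_lower hd' hC.cpt (tr_inj hd'.ne' hC.cpt hC.ne)).trans ((lower_le_upper _).trans
    (le_iSup₂ (f := fun 𝒜 (_ : IsCongruentFamily C 𝒜 ∧ IsPacking 𝒜) => upperDensity 𝒜) _
      ⟨lat_congr _ _ C, fun A hA B hB hAB => ?_⟩))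
  obtain ⟨⟨m, n⟩, rfl⟩ := mem_lat.1 hA
  obtain ⟨⟨m', n'⟩, rfl⟩ := mem_lat.1 hB
  refine Set.disjoint_left.2 fun z h1 h2 => ?_
  have k1 := hin _ z h1
  have k2 := hin _ z h2
  have k3 := h (m' - m, n' - n) fun e => hAB (by
    rw [Prod.mk.injEq] at e
    rw [show m = m' by omega, show n = n' by omega])
  have k4 := hC.g_comb (x := lp x y (m' - m, n' - n))
    (u := z - lp ((2 : ℝ) • x) ((2 : ℝ) • y) (m, n))
    (v := -(z - lp ((2 : ℝ) • x) ((2 : ℝ) • y) (m', n'))) (a := 1 / 2) (b := 1 / 2) (by norm_num)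
    (by norm_num) (by simp only [lp]; push_cast; module)
  rw [hC.g_neg] at k4
  linarith

/-- small packing density and large covering density give a critical body -/
theorem exists_bad (h1 : IsConvexBody C) (h2 : IsCentrallySymmetric C) {X Y : ℝ} (hY : 0 < Y)
    (hδ : packingDensity C < X) (hθ : Y ≤ coveringDensity C) :
    ∃ (Q : ℝ) (S : Set Plane), 0 < Q ∧ Bad Q (4 * X * Q) (4 * X / Y * Q) S := by
  obtain ⟨k1, k2, k3, -⟩ := main_bound h1 h2 le_rfl (by positivity : (0 : ℝ) ≤ π / 6)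
  obtain ⟨c, C0, hC, rfl⟩ := exists_sym0 h1 h2
  have hA := hC.area_pos
  have hX : 0 < X := k1.trans hδ
  have hQ : 0 < (volume C0).toReal / (4 * X) := by positivity
  have hit : Hit ((volume C0).toReal / (4 * X)) C0 := by
    intro p q hd hle
    by_contra hn
    push Not at hn
    have l1 := hC.le_pd_lat hd fun k hk => (not_le.1 fun e => hn k hk (hC.g_le.1 e)).le
    rw [← pd_image (IsometryEquiv.addLeft c)] at l1
    have m1 : (volume C0).toReal / (4 * dt p q) ≤ packingDensity (IsometryEquiv.addLeft c '' C0) :=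
      (ENNReal.ofReal_le_iff_le_toReal (ENNReal.toReal_pos_iff.1 k1).2.ne).1 l1
    rw [le_div_iff₀ (by positivity)] at hle
    have := m1.trans_lt hδ
    rw [div_lt_iff₀ (by positivity)] at this
    linarith
  obtain ⟨S, hS, hc⟩ := exists_crit hQ hC hit
  refine ⟨_, S, hQ, hc, ?_, fun u hu v hv w hw => ?_⟩
  · rw [mul_div_cancel₀ _ (by positivity)]
    exact ENNReal.toReal_mono hC.cpt.measure_ne_top (measure_mono hS)
  · obtain ⟨u', hu', v', hv', w', hw', ha, hb, hc, hd, hmax⟩ := hC.exists_max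
    have l1 := ENNReal.toReal_le_of_le_ofReal (by positivity) (hC.ld_le c hu' hv' hw' ha hb hc hd)
    have l2 : Y ≤ (volume C0).toReal / hform u' v' w' := hθ.trans (k3.trans l1)
    rw [le_div_iff₀ hd] at l2
    refine (hmax u (hS hu) v (hS hv) w (hS hw)).trans ?_
    rw [show 4 * X / Y * ((volume C0).toReal / (4 * X)) = (volume C0).toReal / Y by field_simp,
      le_div_iff₀ hY]
    linarith

/-- the linear map with matrix `(a b; c d)` -/
def mp (a b c d : ℝ) (z : Plane) : Plane := pt (a * z 0 + b * z 1) (c * z 0 + d * z 1)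

lemma mp_comb (a b c d s t : ℝ) (u v : Plane) :
    mp a b c d (s • u + t • v) = s • mp a b c d u + t • mp a b c d v := by
  refine plane_ext ?_ ?_ <;>
    simp only [mp, pt_zero, pt_one, PiLp.add_apply, PiLp.smul_apply, smul_eq_mul] <;> ring

lemma mp_smul (a b c d s : ℝ) (u : Plane) : mp a b c d (s • u) = s • mp a b c d u := by
  simpa using mp_comb a b c d s 0 u u

lemma mp_sub (a b c d : ℝ) (u v : Plane) : mp a b c d (u - v) = mp a b c d u - mp a b c d v := by
  simpa [sub_eq_add_neg] using mp_comb a b c d 1 (-1) u v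

lemma mp_neg (a b c d : ℝ) (u : Plane) : mp a b c d (-u) = -mp a b c d u := by
  simpa using mp_smul a b c d (-1) u

lemma dt_mp (a b c d : ℝ) (u v : Plane) :
    dt (mp a b c d u) (mp a b c d v) = (a * d - b * c) * dt u v := by
  simp only [mp, dt, pt_zero, pt_one]; ring

lemma continuous_mp (a b c d : ℝ) : Continuous (mp a b c d) := by unfold mp pt; fun_prop

lemma mp_inv {a b c d : ℝ} (h : a * d - b * c ≠ 0) (z : Plane) :
    mp a b c d (mp (d / (a * d - b * c)) (-b / (a * d - b * c)) (-c / (a * d - b * c))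
      (a / (a * d - b * c)) z) = z := by
  have k := mul_inv_cancel₀ h
  refine plane_ext ?_ ?_ <;> simp only [mp, pt_zero, pt_one, div_eq_mul_inv]
  · linear_combination z 0 * k
  · linear_combination z 1 * k

lemma inv_mp {a b c d : ℝ} (h : a * d - b * c ≠ 0) (z : Plane) :
    mp (d / (a * d - b * c)) (-b / (a * d - b * c)) (-c / (a * d - b * c))
      (a / (a * d - b * c)) (mp a b c d z) = z := by
  have k := mul_inv_cancel₀ h
  refine plane_ext ?_ ?_ <;> simp only [mp, pt_zero, pt_one, div_eq_mul_inv]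
  · linear_combination z 0 * k
  · linear_combination z 1 * k

lemma gauge_mp (a b c d : ℝ) (z : Plane) :
    gauge (mp a b c d ⁻¹' C) z = gauge C (mp a b c d z) := by
  simp only [gauge_def', mem_preimage, mp_smul]

lemma Sym0.map (hC : Sym0 C) {a b c d : ℝ} (h : a * d - b * c ≠ 0) : Sym0 (mp a b c d ⁻¹' C) := by
  refine ⟨?_, fun u hu v hv s t hs ht e => ?_, fun z hz => ?_, ?_⟩
  · refine (hC.cpt.image (continuous_mp (d / (a * d - b * c)) (-b / (a * d - b * c))
      (-c / (a * d - b * c)) (a / (a * d - b * c)))).of_isClosed_subset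
      (hC.cpt.isClosed.preimage (continuous_mp a b c d)) fun z hz => ⟨_, hz, inv_mp h z⟩
  · rw [mem_preimage, mp_comb]; exact hC.cvx hu hv hs ht e
  · rw [mem_preimage, mp_neg]; exact hC.sym _ hz
  · have : mp a b c d ⁻¹' C ∈ 𝓝 (0 : Plane) := (continuous_mp a b c d).continuousAt.preimage_mem_nhds
      (by rw [show mp a b c d 0 = 0 by simpa using mp_smul a b c d 0 0]; exact hC.nhds)
    exact nhds_basis_closedBall.mem_iff.1 this

lemma volume_mp (hC : IsCompact C) {a b c d : ℝ} (h : 0 < a * d - b * c) :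
    (volume (mp a b c d ⁻¹' C)).toReal = (volume C).toReal / (a * d - b * c) := by
  have m : MeasurableSet {w : ℝ × ℝ | pt w.1 w.2 ∈ C} :=
    (hC.isClosed.preimage (f := fun w : ℝ × ℝ => pt w.1 w.2) (by unfold pt; fun_prop)).measurableSet
  have e1 := volume_lin h.ne' m
  have e2 := volume_lin_one (a := 1) (b := 0) (c := 0) (d := 1) (by norm_num) m
  have f2 : lin 1 0 0 1 ⁻¹' {w : ℝ × ℝ | pt w.1 w.2 ∈ C} = C := by
    ext z
    have : pt (z 0) (z 1) = z := plane_ext rfl rfl
    simp [lin, this]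
  rw [f2] at e2
  rw [show mp a b c d ⁻¹' C = lin a b c d ⁻¹' {w : ℝ × ℝ | pt w.1 w.2 ∈ C} from rfl, e1, ← e2,
    ENNReal.toReal_mul, ENNReal.toReal_ofReal (abs_nonneg _), abs_of_pos (inv_pos.2 h)]
  ring

lemma Hex.map {a b c d : ℝ} (h : 0 < a * d - b * c) {x y : Plane} :
    Hex (mp a b c d ⁻¹' C) x y ↔ Hex C (mp a b c d x) (mp a b c d y) := by
  constructor
  · rintro ⟨g0, g1, g2, p⟩
    rw [gauge_mp] at g0 g1 g2
    exact ⟨g0, g1, by rwa [← mp_sub], by rw [dt_mp]; positivity⟩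
  · rintro ⟨g0, g1, g2, p⟩
    rw [dt_mp] at p
    exact ⟨by rwa [gauge_mp], by rwa [gauge_mp], by rwa [gauge_mp, mp_sub],
      (mul_pos_iff_of_pos_left h).1 p⟩

/-- a linear change of coordinates -/
theorem Bad.map {A H : ℝ} (hC : Bad Q A H C) {a b c d : ℝ} (h : 0 < a * d - b * c) :
    Bad (Q / (a * d - b * c)) (A / (a * d - b * c)) (H / (a * d - b * c)) (mp a b c d ⁻¹' C) := by
  refine ⟨⟨hC.crit.sym0.map h.ne', fun k => ?_⟩, ?_, fun u hu v hv w hw => ?_⟩
  · rw [← hC.crit.q ((Hex.map h).1 k), dt_mp]; field_simp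
  · rw [volume_mp hC.crit.sym0.cpt h]
    exact div_le_div_of_nonneg_right hC.area h.le
  · have := hC.hexa _ hu _ hv _ hw
    simp only [hform, dt_mp] at this
    rw [le_div_iff₀ h, hform]
    linarith

end Pool.Agent.Lib.MP_fb520c_co
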