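import Pool.Agent.Lib.MP_fb520c_co.HarmB

/-! A minimal symmetric body: all inscribed affinely regular hexagons have the same size. -/

set_option autoImplicit false

open MeasureTheory Set Real Filter Topology Metric
open scoped ENNReal

noncomputable section

namespace Pool.Agent.Lib.MP_fb520c_co

variable {C : Set Plane}

/-- `x, y, y - x` are consecutive vertices of an inscribed affinely regular hexagon -/
structure Hex (C : Set Plane) (x y : Plane) : Prop where
  g0 : gauge C x = 1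
  g1 : gauge C y = 1
  g2 : gauge C (y - x) = 1
  pos : 0 < dt x y

/-- every lattice of determinant at most `Q` has a nonzero point in `C` -/
def Hit (Q : ℝ) (C : Set Plane) : Prop :=
  ∀ p q : Plane, 0 < dt p q → dt p q ≤ Q → ∃ k : ℤ × ℤ, k ≠ (0, 0) ∧ lp p q k ∈ C

lemma Hex.next (hC : Sym0 C) {x y : Plane} (h : Hex C x y) : Hex C y (y - x) :=
  ⟨h.g1, h.g2, by rw [sub_sub_cancel_left, hC.g_neg, h.g0],
    by rw [dt_sub_right, dt_self, dt_swap]; linarith [h.pos]⟩

lemma dt_next (x y : Plane) : dt y (y - x) = dt x y := by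
  rw [dt_sub_right, dt_self, dt_swap]; ring

lemma Hit.le_hex (hC : Sym0 C) {Q : ℝ} (h : Hit Q C) {x y : Plane} (hx : Hex C x y) :
    Q ≤ dt x y := by
  by_contra hn
  push Not at hn
  have hd := hx.pos
  have h1 : 1 < Q / dt x y := (one_lt_div hd).2 hn
  have hr : 1 < √(Q / dt x y) := by
    rw [← Real.sqrt_one]; exact Real.sqrt_lt_sqrt zero_le_one (by simpa using h1)
  have hr2 : √(Q / dt x y) * √(Q / dt x y) = Q / dt x y := Real.mul_self_sqrt (by linarith)
  generalize √(Q / dt x y) = r at hr hr2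
  have e : dt (r • x) (r • y) = Q := by
    rw [dt_smul_left, dt_smul_right, ← mul_assoc, hr2, div_mul_cancel₀ _ hd.ne']
  obtain ⟨⟨m, n⟩, hk, hm⟩ := h (r • x) (r • y) (by rw [e]; linarith) e.le
  have k1 := hC.lat_low hx.g0 hx.g1 hx.g2 hk
  have k2 := hC.g_le.2 hm
  rw [show lp (r • x) (r • y) (m, n) = r • ((m : ℝ) • x + (n : ℝ) • y) by
    simp only [lp]; module, hC.g_smul, abs_of_pos (by linarith)] at k2
  nlinarith

lemma abs_dt_le (u v : Plane) : |dt u v| ≤ ‖u‖ * ‖v‖ := by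
  refine abs_le_of_sq_le_sq' ?_ (by positivity) |> abs_le.2
  rw [mul_pow, norm_sq_eq, norm_sq_eq, dt]
  nlinarith [sq_nonneg (u 0 * v 0 + u 1 * v 1)]

lemma dt_lp_left (p q : Plane) (k : ℤ × ℤ) : dt (lp p q k) q = k.1 * dt p q := by
  simp only [lp, dt_add_left, dt_smul_left, dt_self]; ring

lemma dt_lp_right (p q : Plane) (k : ℤ × ℤ) : dt p (lp p q k) = k.2 * dt p q := by
  simp only [lp, dt_add_right, dt_smul_right, dt_self]; ring

lemma finite_lp {S : Set Plane} (hS : IsCompact S) {p q : Plane} (hd : 0 < dt p q) :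
    {k : ℤ × ℤ | lp p q k ∈ S}.Finite := by
  obtain ⟨M, hM0, hM⟩ := hS.isBounded.exists_pos_norm_le
  obtain ⟨N, hN⟩ := exists_int_gt (M * (‖p‖ + ‖q‖) / dt p q)
  rw [div_lt_iff₀ hd] at hN
  refine ((Set.finite_Icc (-N) N).prod (Set.finite_Icc (-N) N)).subset fun k hk => ?_
  have h1 := abs_dt_le (lp p q k) q
  have h2 := abs_dt_le p (lp p q k)
  rw [dt_lp_left, abs_mul, abs_of_pos hd] at h1
  rw [dt_lp_right, abs_mul, abs_of_pos hd] at h2
  have h3 := hM _ hk
  have np := norm_nonneg p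
  have nq := norm_nonneg q
  have k1 : |(k.1 : ℝ)| ≤ N := le_of_mul_le_mul_right (by nlinarith) hd
  have k2 : |(k.2 : ℝ)| ≤ N := le_of_mul_le_mul_right (by nlinarith) hd
  exact ⟨abs_le.1 (by exact_mod_cast k1), abs_le.1 (by exact_mod_cast k2)⟩

/-- the family of admissible sub-bodies -/
def Fam (Q : ℝ) : Set (Set Plane) :=
  {S | IsCompact S ∧ Convex ℝ S ∧ (∀ z ∈ S, -z ∈ S) ∧ Hit Q S}

lemma exists_minimal {Q : ℝ} {K : Set Plane} (hK : K ∈ Fam Q) :
    ∃ S, S ⊆ K ∧ Minimal (· ∈ Fam Q) S := by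
  refine zorn_superset_nonempty (Fam Q) (fun c hc hch hne => ?_) K hK
  refine ⟨⋂₀ c, ⟨?_, convex_sInter fun s hs => (hc hs).2.1,
    fun z hz s hs => (hc hs).2.2.1 z (hz s hs), fun p q hd hQ => ?_⟩, fun s hs => sInter_subset_of_mem hs⟩
  · obtain ⟨s, hs⟩ := hne
    exact (hc hs).1.of_isClosed_subset (isClosed_sInter fun t ht => (hc ht).1.isClosed)
      (sInter_subset_of_mem hs)
  · have : Nonempty c := hne.to_subtype
    obtain ⟨k, hk⟩ := IsCompact.nonempty_iInter_of_directed_nonempty_isCompact_isClosed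
      (fun s : c => {k : ℤ × ℤ | k ≠ (0, 0) ∧ lp p q k ∈ s.1}) (fun s t => by
        rcases hch.total s.2 t.2 with h | h
        · exact ⟨s, subset_rfl, fun k hk => ⟨hk.1, h hk.2⟩⟩
        · exact ⟨t, fun k hk => ⟨hk.1, h hk.2⟩, subset_rfl⟩)
      (fun s => (hc s.2).2.2.2 p q hd hQ)
      (fun s => ((finite_lp (hc s.2).1 hd).subset fun k hk => hk.2).isCompact)
      (fun s => isClosed_discrete _)
    rw [mem_iInter] at hk
    exact ⟨k, (hk (Classical.arbitrary c)).1, fun s hs => (hk ⟨s, hs⟩).2⟩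

lemma lp_ne_zero {p q : Plane} (hd : dt p q ≠ 0) {k : ℤ × ℤ} (hk : k ≠ (0, 0)) : lp p q k ≠ 0 := by
  intro e
  have k1 := dt_lp_left p q k
  have k2 := dt_lp_right p q k
  rw [e, dt_zero_left] at k1
  rw [e, dt_zero_right] at k2
  exact hk (Prod.ext (by exact_mod_cast (mul_eq_zero.1 k1.symm).resolve_right hd)
    (by exact_mod_cast (mul_eq_zero.1 k2.symm).resolve_right hd))

lemma Fam.sym0 {Q : ℝ} (hQ : 0 < Q) {S : Set Plane} (h : S ∈ Fam Q) : Sym0 S := by
  obtain ⟨h1, h2, h3, h4⟩ := h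
  obtain ⟨M, hM0, hM⟩ := h1.isBounded.exists_pos_norm_le
  have e0 : dt (pt Q 0) (pt 0 1) = Q := by simp [dt]
  obtain ⟨k, hk, hu⟩ := h4 (pt Q 0) (pt 0 1) (by rw [e0]; exact hQ) e0.le
  have hu0 := lp_ne_zero (by rw [e0]; exact hQ.ne') hk
  generalize lp (pt Q 0) (pt 0 1) k = u at hu hu0
  have nu : 0 < ‖u‖ := norm_pos_iff.2 hu0
  obtain ⟨v, hv, hd⟩ : ∃ v ∈ S, 0 < dt u v := by
    have e1 : dt u (pt (-u 1) (u 0)) = ‖u‖ ^ 2 := by rw [norm_sq_eq]; simp [dt]; ring
    have hT : 0 < (M + 1) / ‖u‖ := by positivity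
    have e2 : dt (((M + 1) / ‖u‖) • u) ((Q / ((M + 1) * ‖u‖)) • pt (-u 1) (u 0)) = Q := by
      rw [dt_smul_left, dt_smul_right, e1]; field_simp
    obtain ⟨⟨m, n⟩, hl, hw⟩ := h4 _ _ (by rw [e2]; exact hQ) e2.le
    have e3 := dt_lp_right (((M + 1) / ‖u‖) • u) ((Q / ((M + 1) * ‖u‖)) • pt (-u 1) (u 0)) (m, n)
    rw [e2, dt_smul_left] at e3
    rcases lt_trichotomy n 0 with hn | hn | hn
    · refine ⟨_, h3 _ hw, ?_⟩
      rw [dt_neg_right]
      have : ((m, n).2 : ℝ) * Q < 0 := mul_neg_of_neg_of_pos (by exact_mod_cast hn) hQ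
      rw [← e3] at this
      by_contra hc
      nlinarith
    · exfalso
      have hm : m ≠ 0 := fun e => hl (by rw [e, hn])
      have := hM _ hw
      rw [hn, lp] at this
      simp only [Int.cast_zero, zero_smul, add_zero, norm_smul, Real.norm_eq_abs,
        abs_of_pos hT] at this
      rw [div_mul_cancel₀ _ nu.ne'] at this
      have h1 : (1 : ℝ) ≤ |(m : ℝ)| := by exact_mod_cast Int.one_le_abs hm
      nlinarith
    · refine ⟨_, hw, ?_⟩
      have : 0 < ((m, n).2 : ℝ) * Q := mul_pos (by exact_mod_cast hn) hQ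
      rw [← e3] at this
      exact (pos_iff_pos_of_mul_pos this).1 hT
  have h0 : (0 : Plane) ∈ S := by
    have := h2 hu (h3 _ hu) (a := 1 / 2) (b := 1 / 2) (by norm_num) (by norm_num) (by norm_num)
    rwa [show (1 / 2 : ℝ) • u + (1 / 2 : ℝ) • (-u) = 0 by module] at this
  have half : ∀ w ∈ S, ∀ a : ℝ, |a| ≤ 1 → a • w ∈ S := fun w hw a ha => by
    have := h2 hw (h3 _ hw) (a := (1 + a) / 2) (b := (1 - a) / 2)
      (by linarith [abs_le.1 ha]) (by linarith [abs_le.1 ha]) (by ring)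
    rwa [show ((1 + a) / 2) • w + ((1 - a) / 2) • (-w) = a • w by module] at this
  refine ⟨h1, h2, h3, dt u v / (2 * M), by positivity, fun z hz => ?_⟩
  rw [mem_closedBall_zero_iff, le_div_iff₀ (by positivity)] at hz
  have nz := norm_nonneg z
  have a1 : |2 * (dt z v / dt u v)| ≤ 1 := by
    rw [abs_mul, abs_div, abs_of_pos hd, abs_two, ← mul_div_assoc, div_le_one hd]
    nlinarith [abs_dt_le z v, hM v hv]
  have a2 : |2 * (dt u z / dt u v)| ≤ 1 := by
    rw [abs_mul, abs_div, abs_of_pos hd, abs_two, ← mul_div_assoc, div_le_one hd]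
    nlinarith [abs_dt_le u z, hM u hu]
  have := h2 (half u hu _ a1) (half v hv _ a2) (a := 1 / 2) (b := 1 / 2) (by norm_num) (by norm_num)
    (by norm_num)
  rw [eq_comb hd.ne' z]
  convert this using 1
  module

/-- the hexagon spanned by three inscribed vertices lies in the body -/
lemma Hex.up (hC : Sym0 C) {x y : Plane} (h : Hex C x y) {a b r : ℝ} (ha : |a| ≤ r) (hb : |b| ≤ r)
    (hab : |a + b| ≤ r) : gauge C (a • x + b • y) ≤ r := by
  have key : ∀ a b : ℝ, 0 ≤ b → |a| ≤ r → |b| ≤ r → |a + b| ≤ r → gauge C (a • x + b • y) ≤ r := by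
    intro a b b0 ha hb hab
    rw [abs_le] at ha hb hab
    rcases le_total 0 a with a0 | a0
    · have := hC.g_comb a0 b0 (rfl : a • x + b • y = _)
      rw [h.g0, h.g1] at this
      linarith
    rcases le_total 0 (a + b) with s0 | s0
    · have := hC.g_comb (x := a • x + b • y) (u := y - x) (v := y) (a := -a) (by linarith) s0
        (by module)
      rw [h.g2, h.g1] at this
      linarith
    · have := hC.g_comb (x := a • x + b • y) (u := y - x) (v := -x) b0 (b := -(a + b))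
        (by linarith) (by module)
      rw [h.g2, hC.g_neg, h.g0] at this
      linarith
  rcases le_total 0 b with b0 | b0
  · exact key a b b0 ha hb hab
  · have := key (-a) (-b) (by linarith) (by rwa [abs_neg]) (by rwa [abs_neg])
      (by rwa [← neg_add, abs_neg])
    rwa [show (-a) • x + (-b) • y = -(a • x + b • y) by module, hC.g_neg] at this

lemma window {τ κ α β a b : ℝ} (t0 : 0 < τ) (t1 : τ ≤ 1 / 20) (k0 : 0 < κ) (k1 : κ ≤ 1 - 20 * τ)
    (h1 : 1 < α * (1 + τ)) (h2 : α * (1 - τ) ≤ 1) (h3 : |β| ≤ τ * α) (h4 : α * b - β * a = κ)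
    (h5 : |a + b / 2| ≤ (α + β / 2) / 2) :
    |a| ≤ 1 - τ ∧ |b| ≤ 1 - τ ∧ |a + b| ≤ 1 - τ := by
  have a1 : 1 - τ ≤ α := by nlinarith
  have a2 : α ≤ 1 + 2 * τ := by nlinarith
  have b1 : |β| ≤ 2 * τ := by nlinarith
  rw [abs_le] at b1
  have s1 : |a + b / 2| ≤ 3 / 5 := by linarith
  have s2 : |β * (a + b / 2)| ≤ 2 * τ * (3 / 5) := by
    rw [abs_mul]
    exact mul_le_mul (abs_le.2 b1) s1 (abs_nonneg _) (by linarith)
  have e : b * (α + β / 2) = κ + β * (a + b / 2) := by linarith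
  rw [abs_le] at s2 h5
  have c1 : b ≤ 1 - 16 * τ := by
    by_contra hc
    push Not at hc
    nlinarith
  have c2 : -(1 - 16 * τ) ≤ b := by
    by_contra hc
    push Not at hc
    nlinarith
  simp only [abs_le]
  refine ⟨⟨?_, ?_⟩, ⟨?_, ?_⟩, ?_, ?_⟩ <;> linarith

/-- in a minimal body the vertices of a large hexagon are interior points of boundary segments -/
lemma flat_of_minimal {Q : ℝ} (hQ : 0 < Q) (hm : Minimal (· ∈ Fam Q) C) {e y : Plane}
    (h : Hex C e y) (hlt : Q < dt e y) :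
    ∃ d, 0 < dt e d ∧ gauge C (e + d) ≤ 1 ∧ gauge C (e - d) ≤ 1 := by
  have hC := Fam.sym0 hQ hm.prop
  have hη := h.pos
  obtain ⟨τ, t0, t1, t2⟩ : ∃ τ : ℝ, 0 < τ ∧ τ ≤ 1 / 20 ∧ Q / dt e y ≤ 1 - 20 * τ := by
    have h1 : Q / dt e y < 1 := (div_lt_one hη).2 hlt
    have h2 : 0 < Q / dt e y := div_pos hQ hη
    exact ⟨(1 - Q / dt e y) / 20, by linarith, by linarith, by linarith⟩
  have p1 := hC.g_comb (x := e + τ • y) (u := e) (v := y) zero_le_one t0.le (by module)
  have p2 := hC.g_comb (x := e - τ • y) (u := e) (v := -y) zero_le_one t0.le (by module)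
  rw [hC.g_neg] at p2
  rw [h.g0, h.g1] at p1 p2
  have p3 := gauge_nonneg (s := C) (e + τ • y)
  have p4 := gauge_nonneg (s := C) (e - τ • y)
  generalize hp : gauge C (e + τ • y) = gp at p1 p3
  generalize hn : gauge C (e - τ • y) = gm at p2 p4
  rcases le_or_gt (gp + gm) 2 with hs | hs
  · have hs0 : 2 ≤ gp + gm := by
      have := hC.g_comb (x := (2 : ℝ) • e) (u := e + τ • y) (v := e - τ • y) zero_le_one
        zero_le_one (by module)
      rw [hC.g_smul, h.g0, hp, hn, abs_two] at this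
      linarith
    refine ⟨(gm / 4) • (e + τ • y) - (gp / 4) • (e - τ • y), ?_, ?_, ?_⟩
    · simp only [dt_sub_right, dt_add_right, dt_smul_right, dt_self]
      nlinarith [mul_pos t0 hη]
    · have := hC.g_comb (x := e + ((gm / 4) • (e + τ • y) - (gp / 4) • (e - τ • y)))
        (u := e + τ • y) (v := e - τ • y) (a := 1 / 2 + gm / 4) (b := 1 / 2 - gp / 4)
        (by linarith) (by linarith) (by module)
      rw [hp, hn] at this
      linarith
    · have := hC.g_comb (x := e - ((gm / 4) • (e + τ • y) - (gp / 4) • (e - τ • y)))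
        (u := e + τ • y) (v := e - τ • y) (a := 1 / 2 - gm / 4) (b := 1 / 2 + gp / 4)
        (by linarith) (by linarith) (by module)
      rw [hp, hn] at this
      linarith
  exfalso
  let l : Plane → ℝ := fun z =>
    dt z y / dt e y * ((gp + gm) / 2) + dt e z / dt e y * ((gp - gm) / (2 * τ))
  have ladd : ∀ (a b : ℝ) (u v : Plane), l (a • u + b • v) = a * l u + b * l v := by
    intro a b u v
    simp only [l, dt_add_left, dt_add_right, dt_smul_left, dt_smul_right]; ring
  have lneg : ∀ u, l (-u) = -l u := by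
    intro u
    simp only [l, dt_neg_left, dt_neg_right]; ring
  have lc : Continuous l := by unfold l dt; fun_prop
  have cap : ∀ z ∈ C, 1 < l z → 1 < dt z y / dt e y * (1 + τ) ∧ dt z y / dt e y * (1 - τ) ≤ 1 ∧
      |dt e z / dt e y| ≤ τ * (dt z y / dt e y) := by
    intro z hz hl
    have ez := eq_comb hη.ne' z
    have gz := hC.g_le.2 hz
    simp only [l] at hl
    generalize dt z y / dt e y = α at *
    generalize dt e z / dt e y = β at *
    obtain ⟨a, b, rfl, rfl⟩ : ∃ a b : ℝ, α = a + b ∧ β = τ * (a - b) :=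
      ⟨(α + β / τ) / 2, (α - β / τ) / 2, by ring, by field_simp; ring⟩
    have hl' : 1 < a * gp + b * gm := by
      have : (a + b) * ((gp + gm) / 2) + τ * (a - b) * ((gp - gm) / (2 * τ)) = a * gp + b * gm := by
        field_simp; ring
      linarith
    have b0 : 0 ≤ b := by
      by_contra hb
      push Not at hb
      have := hC.g_comb (x := a • (e + τ • y)) (u := z) (v := e - τ • y) zero_le_one (b := -b)
        (by linarith) (by rw [ez]; module)
      rw [hC.g_smul, hp, hn] at this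
      nlinarith [le_abs_self a]
    have a0 : 0 ≤ a := by
      by_contra ha
      push Not at ha
      have := hC.g_comb (x := b • (e - τ • y)) (u := z) (v := e + τ • y) zero_le_one (b := -a)
        (by linarith) (by rw [ez]; module)
      rw [hC.g_smul, hp, hn] at this
      nlinarith [le_abs_self b]
    have hβ : |τ * (a - b)| ≤ τ * (a + b) := by
      rw [abs_mul, abs_of_pos t0]
      exact mul_le_mul_of_nonneg_left (abs_le.2 ⟨by linarith, by linarith⟩) t0.le
    refine ⟨by nlinarith, ?_, hβ⟩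
    have := hC.g_add z (-((τ * (a - b)) • y))
    rw [hC.g_neg, hC.g_smul, h.g1, show z + -((τ * (a - b)) • y) = (a + b) • e by rw [ez]; module,
      hC.g_smul, h.g0, abs_of_nonneg (by linarith)] at this
    linarith
  have hnot : ¬ Hit Q (C ∩ {z | |l z| ≤ 1}) := by
    intro hh
    have := hm.le_of_le (y := C ∩ {z | |l z| ≤ 1}) ⟨hC.cpt.inter_right (isClosed_le lc.abs
      continuous_const), hC.cvx.inter fun u hu v hv a b ha hb hab => ?_,
      fun z hz => ⟨hC.sym z hz.1, ?_⟩, hh⟩ inter_subset_left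
    · have k := (this (hC.g_le.1 h.g0.le)).2
      have : l e = (gp + gm) / 2 := by simp only [l, dt_self, div_self hη.ne']; ring
      rw [mem_ofPred_eq, this, abs_le] at k
      linarith
    · rw [mem_ofPred_eq, abs_le] at hu hv ⊢
      rw [ladd]
      constructor <;> nlinarith
    · have := hz.2
      rwa [mem_ofPred_eq, ← abs_neg, ← lneg] at this
  unfold Hit at hnot
  push Not at hnot
  obtain ⟨p, q, hd, hdQ, hno⟩ := hnot
  have out : ∀ k, k ≠ (0, 0) → lp p q k ∈ C → 1 < |l (lp p q k)| := fun k hk hin => by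
    by_contra hc
    exact hno k hk ⟨hin, not_lt.1 hc⟩
  obtain ⟨m, n, u, v, hb, hz, hl⟩ : ∃ m n u v : ℤ, m * u + n * v = 1 ∧ lp p q (m, n) ∈ C ∧
      1 < l (lp p q (m, n)) := by
    obtain ⟨⟨m, n⟩, hk, hin⟩ := hm.prop.2.2.2 p q hd hdQ
    have g0 : 0 < Int.gcd m n := Int.gcd_pos_iff.2 (by
      by_contra hc
      push Not at hc
      exact hk (by rw [hc.1, hc.2]))
    obtain ⟨m', n', hco, e1, e2⟩ := Int.exists_gcd_one g0
    obtain ⟨u, v, huv⟩ := Int.isCoprime_iff_gcd_eq_one.2 hco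
    have g1 : (1 : ℝ) ≤ (Int.gcd m n : ℝ) := by exact_mod_cast g0
    generalize Int.gcd m n = g at e1 e2 g1
    have hin' : lp p q (m', n') ∈ C := by
      have k := hC.g_le.2 hin
      rw [show lp p q (m, n) = (g : ℝ) • lp p q (m', n') by
        simp only [lp, e1, e2]
        push_cast; module, hC.g_smul, abs_of_pos (by linarith)] at k
      rw [← hC.g_le]
      nlinarith [gauge_nonneg (s := C) (lp p q (m', n'))]
    have hk' : (m', n') ≠ (0, 0) := fun e => by
      rw [Prod.mk.injEq] at e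
      rw [e.1, e.2] at huv
      simp at huv
    rcases lt_abs.1 (out _ hk' hin') with k | k
    · exact ⟨m', n', u, v, by linarith, hin', k⟩
    · have e : lp p q (-m', -n') = -lp p q (m', n') := by simp only [lp]; push_cast; module
      exact ⟨-m', -n', -u, -v, by linarith, e ▸ hC.sym _ hin', by rwa [e, lneg]⟩
  obtain ⟨c1, c2, c3⟩ := cap _ hz hl
  set z := lp p q (m, n) with hzd
  have α0 : 0 < dt z y / dt e y := by nlinarith
  have s0 : 0 < dt z y / dt e y + dt e z / dt e y / 2 := by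
    rw [abs_le] at c3; nlinarith
  set w0 := lp p q (-v, u) with hw0
  set j := round ((dt w0 y / dt e y + dt e w0 / dt e y / 2) /
    (dt z y / dt e y + dt e z / dt e y / 2)) with hj
  have hw : lp p q (-v - j * m, u - j * n) = w0 - (j : ℝ) • z := by
    simp only [hw0, hzd, lp]; push_cast; module
  have hdet : dt z (w0 - (j : ℝ) • z) = dt p q := by
    have : ((m : ℝ) * u + n * v) = 1 := by exact_mod_cast hb
    simp only [hw0, hzd, lp, dt_sub_right, dt_add_left, dt_add_right, dt_smul_left, dt_smul_right,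
      dt_self, dt_swap p q]
    push_cast
    linear_combination dt p q * this
  set w := w0 - (j : ℝ) • z with hwd
  have hwin := window (κ := dt p q / dt e y) (a := dt w y / dt e y) (b := dt e w / dt e y) t0 t1
    (div_pos hd hη) ((div_le_div_of_nonneg_right hdQ hη.le).trans t2) c1 c2 c3 (by
      rw [← hdet]; field_simp; simp only [dt]; ring) (by
      have := abs_sub_round ((dt w0 y / dt e y + dt e w0 / dt e y / 2) /
        (dt z y / dt e y + dt e z / dt e y / 2))
      rw [← hj] at this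
      have e : dt w y / dt e y + dt e w / dt e y / 2 = ((dt w0 y / dt e y + dt e w0 / dt e y / 2) /
          (dt z y / dt e y + dt e z / dt e y / 2) - j) *
          (dt z y / dt e y + dt e z / dt e y / 2) := by
        rw [sub_mul, div_mul_cancel₀ _ s0.ne', hwd, dt_sub_left, dt_sub_right, dt_smul_left,
          dt_smul_right]
        ring
      rw [e, abs_mul, abs_of_pos s0]
      nlinarith)
  have hwC : w ∈ C := by
    rw [← hC.g_le, eq_comb hη.ne' w]
    exact (h.up hC hwin.1 hwin.2.1 hwin.2.2).trans (by linarith)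
  have hk : (-v - j * m, u - j * n) ≠ (0, 0) := fun e => by
    rw [e, show lp p q (0, 0) = 0 by simp [lp]] at hw
    rw [← hw, dt_zero_right] at hdet
    exact hd.ne hdet
  have hl' := out _ hk (hw ▸ hwC)
  rw [hw] at hl'
  have hw1 := abs_le.1 hwin.1
  rcases lt_abs.1 hl' with k | k
  · have := (cap w hwC k).1
    nlinarith
  · have := (cap (-w) (hC.sym _ hwC) (by rwa [lneg])).1
    rw [dt_neg_left, neg_div] at this
    nlinarith

/-- the line of a boundary segment supports the body -/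
lemma Sym0.support (hC : Sym0 C) {u d : Plane} (hu : gauge C u = 1) (h1 : gauge C (u + d) ≤ 1)
    (h2 : gauge C (u - d) ≤ 1) (hd : 0 < dt u d) {z : Plane} (hz : gauge C z ≤ 1) :
    |dt z d| ≤ dt u d := by
  have key : ∀ z, gauge C z ≤ 1 → dt z d ≤ dt u d := by
    intro z hz
    rw [← div_le_one hd]
    have ez := eq_comb hd.ne' z
    generalize dt z d / dt u d = a at *
    generalize dt u z / dt u d = b at *
    rcases le_total 0 b with b0 | b0
    · have := hC.g_comb (x := (a + b) • u) (u := z) (v := u - d) zero_le_one b0 (by rw [ez]; module)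
      rw [hC.g_smul, hu] at this
      nlinarith [le_abs_self (a + b)]
    · have := hC.g_comb (x := (a - b) • u) (u := z) (v := u + d) zero_le_one (b := -b)
        (by linarith) (by rw [ez]; module)
      rw [hC.g_smul, hu] at this
      nlinarith [le_abs_self (a - b)]
  have k := key (-z) (by rwa [hC.g_neg])
  rw [dt_neg_left] at k
  exact abs_le.2 ⟨by linarith, key z hz⟩

lemma Sym0.on_seg (hC : Sym0 C) {u d : Plane} (hu : gauge C u = 1) (h1 : gauge C (u + d) ≤ 1)
    (h2 : gauge C (u - d) ≤ 1) {s : ℝ} (hs : |s| ≤ 1) : gauge C (u + s • d) = 1 := by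
  rw [abs_le] at hs
  have k1 := hC.g_comb (x := u + s • d) (u := u + d) (v := u - d) (a := (1 + s) / 2)
    (b := (1 - s) / 2) (by linarith) (by linarith) (by module)
  have k2 := hC.g_comb (x := u - s • d) (u := u + d) (v := u - d) (a := (1 - s) / 2)
    (b := (1 + s) / 2) (by linarith) (by linarith) (by module)
  have k3 := hC.g_comb (x := (2 : ℝ) • u) (u := u + s • d) (v := u - s • d) zero_le_one zero_le_one
    (by module)
  rw [hC.g_smul, hu, abs_two] at k3
  apply le_antisymm <;> nlinarith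

lemma Sym0.dir_order (hC : Sym0 C) {u v a b : Plane} (hu : gauge C u = 1) (hv : gauge C v = 1)
    (h : 0 < dt u v) (ha : 0 < dt u a ∧ gauge C (u + a) ≤ 1 ∧ gauge C (u - a) ≤ 1)
    (hb : 0 < dt v b ∧ gauge C (v + b) ≤ 1 ∧ gauge C (v - b) ≤ 1) : 0 ≤ dt a b := by
  have k1 := hC.support hu ha.2.1 ha.2.2 ha.1 hv.le
  have k2 := hC.support hv hb.2.1 hb.2.2 hb.1 hu.le
  have e : dt u v * dt a b = dt u a * dt v b - dt u b * dt v a := by simp only [dt]; ring
  have k3 : dt u b * dt v a ≤ dt v b * dt u a :=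
    (le_abs_self _).trans (by rw [abs_mul]; exact mul_le_mul k2 k1 (abs_nonneg _) hb.1.le)
  exact nonneg_of_mul_nonneg_right (by linarith) h |> fun k => k

lemma hex_le_of_minimal {Q : ℝ} (hQ : 0 < Q) (hm : Minimal (· ∈ Fam Q) C) {x y : Plane}
    (h : Hex C x y) : dt x y ≤ Q := by
  have hC := Fam.sym0 hQ hm.prop
  by_contra hlt
  push Not at hlt
  obtain ⟨M, hM0, hM⟩ := hC.cpt.isBounded.exists_pos_norm_le
  obtain ⟨ε, e0, e1⟩ : ∃ ε : ℝ, 0 < ε ∧ ε * (2 * M ^ 2) < dt x y - Q :=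
    ⟨(dt x y - Q) / (4 * M ^ 2), div_pos (by linarith) (by positivity), by
      field_simp; nlinarith⟩
  have hH : IsCompact {z : Plane × Plane | gauge C z.1 = 1 ∧ gauge C z.2 = 1 ∧
      gauge C (z.2 - z.1) = 1} := by
    have gc := hC.g_cont
    refine (hC.cpt.prod hC.cpt).of_isClosed_subset ((isClosed_eq (by fun_prop) continuous_const).inter
      ((isClosed_eq (by fun_prop) continuous_const).inter
        (isClosed_eq (by fun_prop) continuous_const))) fun z hz =>
      ⟨hC.g_le.1 hz.1.le, hC.g_le.1 hz.2.1.le⟩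
  obtain ⟨⟨u, v⟩, ⟨g0, g1, g2⟩, hmax⟩ := hH.exists_isMaxOn ⟨(x, y), h.g0, h.g1, h.g2⟩
    (f := fun z => dt z.1 z.2 + ε * (‖z.1‖ ^ 2 + ‖z.2‖ ^ 2)) (by unfold dt; fun_prop)
  simp only at g0 g1 g2
  have hmax' : ∀ a b, gauge C a = 1 → gauge C b = 1 → gauge C (b - a) = 1 →
      dt a b + ε * (‖a‖ ^ 2 + ‖b‖ ^ 2) ≤ dt u v + ε * (‖u‖ ^ 2 + ‖v‖ ^ 2) :=
    fun a b h0 h1 h2 => hmax (a := (a, b)) ⟨h0, h1, h2⟩
  have hq : Q < dt u v := by
    have k := hmax' x y h.g0 h.g1 h.g2
    have n1 := pow_le_pow_left₀ (norm_nonneg _) (hM u (hC.g_le.1 g0.le)) 2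
    have n2 := pow_le_pow_left₀ (norm_nonneg _) (hM v (hC.g_le.1 g1.le)) 2
    nlinarith [sq_nonneg ‖x‖, sq_nonneg ‖y‖]
  have H0 : Hex C u v := ⟨g0, g1, g2, by linarith⟩
  have H1 := H0.next hC
  have H2 := H1.next hC
  obtain ⟨d0, f0⟩ := flat_of_minimal hQ hm H0 hq
  obtain ⟨d1, f1⟩ := flat_of_minimal hQ hm H1 (by rwa [dt_next])
  obtain ⟨d2, f2⟩ := flat_of_minimal hQ hm H2 (by rwa [dt_next, dt_next])
  have nz : ∀ {a d : Plane}, 0 < dt a d → 0 < ‖d‖ ^ 2 := fun {a d} k =>
    pow_pos (norm_pos_iff.2 fun e => by rw [e, dt_zero_right] at k; exact lt_irrefl _ k) 2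
  have move : ∀ a b c : ℝ, a • d0 + c • d2 = b • d1 → 0 ≤ a * c * dt d0 d2 → a = 0 ∧ b = 0 := by
    intro a b c e hs
    obtain ⟨s, s0, s1, s2, s3⟩ : ∃ s : ℝ, 0 < s ∧ |s * a| ≤ 1 ∧ |s * b| ≤ 1 ∧ |s * c| ≤ 1 := by
      have a0 := abs_nonneg a
      have b0 := abs_nonneg b
      have c0 := abs_nonneg c
      have hp : 0 < 1 + |a| + |b| + |c| := by linarith
      refine ⟨(1 + |a| + |b| + |c|)⁻¹, inv_pos.2 hp, ?_, ?_, ?_⟩ <;>
        rw [abs_mul, abs_of_pos (inv_pos.2 hp), inv_mul_le_iff₀ hp] <;> linarith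
    have mv : ∀ s : ℝ, |s * a| ≤ 1 → |s * b| ≤ 1 → |s * c| ≤ 1 →
        dt (u + (s * a) • d0) (v + (s * b) • d1) + ε * (‖u + (s * a) • d0‖ ^ 2 +
          ‖v + (s * b) • d1‖ ^ 2) ≤ dt u v + ε * (‖u‖ ^ 2 + ‖v‖ ^ 2) := fun s s1 s2 s3 =>
      hmax' _ _ (hC.on_seg g0 f0.2.1 f0.2.2 s1) (hC.on_seg g1 f1.2.1 f1.2.2 s2) (by
        rw [show v + (s * b) • d1 - (u + (s * a) • d0) = v - u + (s * c) • d2 by
          rw [mul_smul s b, ← e]; module]
        exact hC.on_seg g2 f2.2.1 f2.2.2 s3)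
    have k1 := mv s s1 s2 s3
    have k2 := mv (-s) (by rwa [neg_mul, abs_neg]) (by rwa [neg_mul, abs_neg])
      (by rwa [neg_mul, abs_neg])
    have e' : a * b * dt d0 d1 = a * c * dt d0 d2 := by
      have := congrArg (dt d0) e
      rw [dt_add_right, dt_smul_right, dt_smul_right, dt_smul_right, dt_self] at this
      linear_combination -a * this
    have k3 : s ^ 2 * (a * b * dt d0 d1 + ε * (a ^ 2 * ‖d0‖ ^ 2 + b ^ 2 * ‖d1‖ ^ 2)) ≤ 0 := by
      simp only [norm_sq_eq, dt, PiLp.add_apply, PiLp.smul_apply, smul_eq_mul] at k1 k2 ⊢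
      linear_combination (1 / 2) * k1 + (1 / 2) * k2
    have k4 : a ^ 2 * ‖d0‖ ^ 2 + b ^ 2 * ‖d1‖ ^ 2 ≤ 0 := by
      by_contra hc
      push Not at hc
      have := mul_pos (pow_pos s0 2) (add_pos_of_nonneg_of_pos (e' ▸ hs) (mul_pos e0 hc))
      linarith
    have n0 := nz f0.1
    have n1 := nz f1.1
    have m0 := mul_nonneg (sq_nonneg a) n0.le
    have m1 := mul_nonneg (sq_nonneg b) n1.le
    constructor
    · by_contra hc
      have := mul_pos (sq_pos_of_ne_zero hc) n0
      linarith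
    · by_contra hc
      have := mul_pos (sq_pos_of_ne_zero hc) n1
      linarith
  have o01 := hC.dir_order g0 g1 H0.pos f0 f1
  have o12 := hC.dir_order g1 g2 H1.pos f1 f2
  have o02 := hC.dir_order g0 g2 (by rw [dt_sub_right, dt_self]; linarith) f0 f2
  obtain ⟨-, z2⟩ := move (dt d1 d2) (dt d0 d2) (dt d0 d1) (by
    refine plane_ext ?_ ?_ <;> simp only [dt, PiLp.add_apply, PiLp.smul_apply, smul_eq_mul] <;>
      ring) (by positivity)
  obtain ⟨t, ht⟩ := exists_smul_of_dt (p := d2) (y := d0)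
    (fun e => by have := nz f2.1; rw [e] at this; simp at this) (by rw [dt_swap, z2, neg_zero])
  have := (move 1 0 (-t) (by rw [ht]; module) (by rw [z2]; simp)).1
  norm_num at this

/-- a body all of whose inscribed affinely regular hexagons have determinant `Q` -/
structure Crit (Q : ℝ) (C : Set Plane) : Prop where
  sym0 : Sym0 C
  q : ∀ {x y}, Hex C x y → dt x y = Q

theorem exists_crit {Q : ℝ} (hQ : 0 < Q) {K : Set Plane} (hK : Sym0 K) (h : Hit Q K) :
    ∃ S, S ⊆ K ∧ Crit Q S := by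
  obtain ⟨S, hS, hm⟩ := exists_minimal (Q := Q) ⟨hK.cpt, hK.cvx, hK.sym, h⟩
  have h0 := Fam.sym0 hQ hm.prop
  exact ⟨S, hS, h0, fun hx => le_antisymm (hex_le_of_minimal hQ hm hx)
    (Hit.le_hex h0 hm.prop.2.2.2 hx)⟩

end Pool.Agent.Lib.MP_fb520c_co
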