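import Pool.Agent.Lib.MP_fb520c_co.R.Min

/-! The cyclic order of the inscribed hexagons of a critical body. -/

set_option autoImplicit false

open MeasureTheory Set Real Filter Topology Metric
open scoped ENNReal

noncomputable section

namespace Pool.Agent.Lib.MP_fb520c_co

variable {C : Set Plane} {Q : ℝ}

/-- the regular part of the hexagon with consecutive vertices `x`, `y` -/
def aOf (x y : Plane) : Plane :=
  pt (x 0 / 2 + √3 / 3 * (y 1 - x 1 / 2)) (x 1 / 2 - √3 / 3 * (y 0 - x 0 / 2))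

/-- rotation by the angle `θ` -/
def rot (θ : ℝ) (z : Plane) : Plane :=
  pt (cos θ * z 0 - sin θ * z 1) (sin θ * z 0 + cos θ * z 1)

lemma s3 : √3 * √3 = (3 : ℝ) := Real.mul_self_sqrt (by norm_num)

lemma aOf_next (x y : Plane) : aOf y (y - x) = rot (π / 3) (aOf x y) := by
  refine plane_ext ?_ ?_ <;>
    simp only [aOf, rot, pt_zero, pt_one, PiLp.sub_apply, cos_pi_div_three, sin_pi_div_three]
  · linear_combination (-(y 0 - x 0 / 2) / 6) * s3
  · linear_combination (-(y 1 - x 1 / 2) / 6) * s3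

lemma bOf_next (x y : Plane) : y - aOf y (y - x) = rot (-(π / 3)) (x - aOf x y) := by
  refine plane_ext ?_ ?_ <;>
    simp only [aOf, rot, pt_zero, pt_one, PiLp.sub_apply, cos_neg, sin_neg, cos_pi_div_three,
      sin_pi_div_three]
  · linear_combination (-(y 0 - x 0 / 2) / 6) * s3
  · linear_combination (-(y 1 - x 1 / 2) / 6) * s3

lemma aOf_neg (x y : Plane) : aOf (-x) (-y) = -aOf x y := by
  refine plane_ext ?_ ?_ <;> simp only [aOf, pt_zero, pt_one, PiLp.neg_apply] <;> ring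

lemma aOf_norm (x y : Plane) : ‖aOf x y‖ ^ 2 - ‖x - aOf x y‖ ^ 2 = 2 * √3 / 3 * dt x y := by
  simp only [norm_sq_eq, aOf, dt, pt_zero, pt_one, PiLp.sub_apply]; ring

lemma rot_pol (θ r t : ℝ) : rot θ (pol r t) = pol r (t + θ) := by
  refine plane_ext ?_ ?_ <;> simp only [rot, pol, pt_zero, pt_one, cos_add, sin_add] <;> ring

lemma dt_pol2 (r s t u : ℝ) : dt (pol r t) (pol s u) = r * s * sin (u - t) := by
  simp only [dt, pol, pt_zero, pt_one, sin_sub]; ring

lemma Hex.neg (hC : Sym0 C) {x y : Plane} (h : Hex C x y) : Hex C (-x) (-y) :=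
  ⟨by rw [hC.g_neg, h.g0], by rw [hC.g_neg, h.g1],
    by rw [show -y - -x = -(y - x) by abel, hC.g_neg, h.g2],
    by rw [dt_neg_left, dt_neg_right, neg_neg]; exact h.pos⟩

lemma Hex.low (hC : Sym0 C) {x y z : Plane} (h : Hex C x y) {a b : ℝ} (ha : 0 ≤ a) (hb : 0 ≤ b)
    (e : z = a • x + b • y) (hz : gauge C z = 1) : a ≤ 1 ∧ b ≤ 1 ∧ 1 ≤ a + b := by
  have k1 := hC.hex_low h.g1 h.g2 ha hb
  have k2 := hC.hex_low h.g0 (by rw [hC.g_sub_comm]; exact h.g2) hb ha
  have k3 := hC.g_comb ha hb e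
  rw [add_comm] at k2
  rw [← e, hz] at k1 k2
  rw [hz, h.g0, h.g1] at k3
  exact ⟨k2, k1, by linarith⟩

/-- the vertices of the hexagon `u, v` lie in the sectors that follow the vertices of `x, y` -/
structure Before (x y u v : Plane) : Prop where
  h0 : 0 ≤ dt x u
  h1 : 0 ≤ dt u y
  h2 : 0 ≤ dt y v
  h3 : 0 ≤ dt v (y - x)
  h4 : 0 ≤ dt (y - x) (v - u)
  h5 : 0 ≤ dt (v - u) (-x)

lemma Before.swap {x y u v : Plane} (h : Before x y u v) : Before u v y (y - x) :=
  ⟨h.h1, h.h2, h.h3, h.h4, by rw [sub_sub_cancel_left]; exact h.h5,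
    by rw [sub_sub_cancel_left, dt_neg_left, dt_neg_right, neg_neg]; exact h.h0⟩

lemma dt_comb (x y : Plane) (p r s t : ℝ) :
    dt (p • x + r • y) (s • x + t • y) = (p * t - r * s) * dt x y := by
  simp only [dt, PiLp.add_apply, PiLp.smul_apply, smul_eq_mul]; ring

lemma before_iff {x y : Plane} (h : 0 < dt x y) {p r s t : ℝ} :
    Before x y (p • x + r • y) (s • x + t • y) ↔
      0 ≤ r ∧ 0 ≤ p ∧ s ≤ 0 ∧ 0 ≤ s + t ∧ s + t ≤ p + r ∧ r ≤ t := by
  have e0 : dt x (p • x + r • y) = r * dt x y := by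
    simp only [dt, PiLp.add_apply, PiLp.smul_apply, smul_eq_mul]; ring
  have e1 : dt (p • x + r • y) y = p * dt x y := by
    simp only [dt, PiLp.add_apply, PiLp.smul_apply, smul_eq_mul]; ring
  have e2 : dt y (s • x + t • y) = -s * dt x y := by
    simp only [dt, PiLp.add_apply, PiLp.smul_apply, smul_eq_mul]; ring
  have e3 : dt (s • x + t • y) (y - x) = (s + t) * dt x y := by
    simp only [dt, PiLp.add_apply, PiLp.smul_apply, smul_eq_mul, PiLp.sub_apply]; ring
  have e4 : dt (y - x) (s • x + t • y - (p • x + r • y)) = (p + r - (s + t)) * dt x y := by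
    simp only [dt, PiLp.add_apply, PiLp.smul_apply, smul_eq_mul, PiLp.sub_apply]; ring
  have e5 : dt (s • x + t • y - (p • x + r • y)) (-x) = (t - r) * dt x y := by
    simp only [dt, PiLp.add_apply, PiLp.smul_apply, smul_eq_mul, PiLp.sub_apply, PiLp.neg_apply]
    ring
  have k : ∀ a : ℝ, 0 ≤ a * dt x y ↔ 0 ≤ a := fun a => mul_nonneg_iff_of_pos_right h
  constructor
  · rintro ⟨h0, h1, h2, h3, h4, h5⟩
    rw [e0, k] at h0; rw [e1, k] at h1; rw [e2, k] at h2; rw [e3, k] at h3; rw [e4, k] at h4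
    rw [e5, k] at h5
    exact ⟨h0, h1, by linarith, h3, by linarith, by linarith⟩
  · rintro ⟨h0, h1, h2, h3, h4, h5⟩
    exact ⟨by rwa [e0, k], by rwa [e1, k], by rw [e2, k]; linarith, by rwa [e3, k],
      by rw [e4, k]; linarith, by rw [e5, k]; linarith⟩

lemma exists_coef {x y : Plane} (h : 0 < dt x y) (u : Plane) : ∃ p r : ℝ, u = p • x + r • y :=
  ⟨_, _, eq_comb h.ne' u⟩

/-- the coefficients of the second hexagon in the frame of the first -/
lemma Before.coef (hC : Sym0 C) {x y : Plane} {p r s t : ℝ} (h : Hex C x y)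
    (k : Hex C (p • x + r • y) (s • x + t • y)) (b : Before x y (p • x + r • y) (s • x + t • y)) :
    (p ≤ 1 ∧ r ≤ 1 ∧ 1 ≤ p + r) ∧ (s + t ≤ 1 ∧ -s ≤ 1 ∧ 1 ≤ t) ∧
      (t - r ≤ 1 ∧ p + r - s - t ≤ 1 ∧ 1 ≤ p - s) := by
  obtain ⟨b0, b1, b2, b3, b4, b5⟩ := (before_iff h.pos).1 b
  have k1 := h.low hC b1 b0 rfl k.g0
  have k2 := (h.next hC).low hC (a := s + t) (b := -s) b3 (by linarith) (by module) k.g1
  have k3 := ((h.next hC).next hC).low hC (a := t - r) (b := p + r - s - t) (by linarith)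
    (by linarith) (by module) k.g2
  exact ⟨k1, ⟨k2.1, k2.2.1, by linarith [k2.2.2]⟩, k3.1, k3.2.1, by linarith [k3.2.2]⟩

lemma dt_aOf (x y : Plane) (p r s t : ℝ) :
    dt (aOf x y) (aOf (p • x + r • y) (s • x + t • y)) =
      (dt x y / 3 + √3 / 6 * ‖y‖ ^ 2) * (r - (t - p) / 2) +
      (dt x y / 3 + √3 / 6 * ‖x‖ ^ 2) * (-s - (t - p) / 2) +
      (dt x y / 3 + √3 / 6 * ‖y - x‖ ^ 2) * ((t - p) / 2) := by
  simp only [norm_sq_eq, aOf, dt, pt_zero, pt_one, PiLp.sub_apply, PiLp.add_apply, PiLp.smul_apply,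
    smul_eq_mul]
  linear_combination ((x 0 * y 1 - x 1 * y 0) * (r / 36 - s / 9 + (p - t) / 18)) * s3

lemma Before.mono (hC : Sym0 C) {x y u v : Plane} (h : Hex C x y) (k : Hex C u v)
    (b : Before x y u v) : 0 ≤ dt (aOf x y) (aOf u v) ∧
      (dt (aOf x y) (aOf u v) = 0 → u = x ∧ v = y) := by
  obtain ⟨p, r, rfl⟩ := exists_coef h.pos u
  obtain ⟨s, t, rfl⟩ := exists_coef h.pos v
  obtain ⟨⟨c1, -, c2⟩, ⟨c3, -, c4⟩, c5, -, c6⟩ := b.coef hC h k
  have hp : ∀ z : Plane, 0 < dt x y / 3 + √3 / 6 * ‖z‖ ^ 2 := fun z => by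
    have := h.pos
    positivity
  have m1 := mul_nonneg (hp y).le (show 0 ≤ r - (t - p) / 2 by linarith)
  have m2 := mul_nonneg (hp x).le (show 0 ≤ -s - (t - p) / 2 by linarith)
  have m3 := mul_nonneg (hp (y - x)).le (show 0 ≤ (t - p) / 2 by linarith)
  rw [dt_aOf]
  refine ⟨by linarith, fun e => ?_⟩
  have z1 := (mul_eq_zero.1 (show (dt x y / 3 + √3 / 6 * ‖y‖ ^ 2) * (r - (t - p) / 2) = 0 by
    linarith)).resolve_left (hp y).ne'
  have z2 := (mul_eq_zero.1 (show (dt x y / 3 + √3 / 6 * ‖x‖ ^ 2) * (-s - (t - p) / 2) = 0 by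
    linarith)).resolve_left (hp x).ne'
  have z3 := (mul_eq_zero.1 (show (dt x y / 3 + √3 / 6 * ‖y - x‖ ^ 2) * ((t - p) / 2) = 0 by
    linarith)).resolve_left (hp (y - x)).ne'
  rw [show p = 1 by linarith, show r = 0 by linarith, show s = 0 by linarith,
    show t = 1 by linarith]
  simp

lemma Crit.half (hC : Crit Q C) {x y u v : Plane} (h : Hex C x y) (k : Hex C u v)
    (h0 : 0 ≤ dt x u) (h1 : 0 < dt u y) : Before x y u v ∨ Before (x - y) x u v := by
  have hS := hC.sym0
  have hq := (hC.q k).trans (hC.q h).symm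
  have hd := h.pos
  obtain ⟨p, r, rfl⟩ := exists_coef h.pos u
  obtain ⟨s, t, rfl⟩ := exists_coef h.pos v
  rw [dt_comb] at hq
  have det : p * t - r * s = 1 := by
    have : (p * t - r * s - 1) * dt x y = 0 := by linarith
    linarith [(mul_eq_zero.1 this).resolve_right hd.ne']
  rw [dt_add_right, dt_smul_right, dt_smul_right, dt_self, mul_zero, zero_add] at h0
  rw [dt_add_left, dt_smul_left, dt_smul_left, dt_self, mul_zero, add_zero] at h1
  have r0 : 0 ≤ r := (mul_nonneg_iff_of_pos_right hd).1 h0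
  have p0 : 0 < p := (mul_pos_iff_of_pos_right hd).1 h1
  obtain ⟨c1, c2, c3⟩ := h.low hS p0.le r0 rfl k.g0
  have ey : y = (-s) • (p • x + r • y) + p • (s • x + t • y) := by
    have : (-s) • (p • x + r • y) + p • (s • x + t • y) = (p * t - r * s) • y := by module
    rw [this, det, one_smul]
  have ex : y - x = (-s - t) • (p • x + r • y) + (p + r) • (s • x + t • y) := by
    have : (-s - t) • (p • x + r • y) + (p + r) • (s • x + t • y) =
      (p * t - r * s) • (y - x) := by module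
    rw [this, det, one_smul]
  rcases le_or_gt s 0 with s0 | s0
  · left
    obtain ⟨d1, -, -⟩ := k.low hS (by linarith) p0.le ey h.g1
    have st : 0 ≤ s + t := by
      by_contra hc
      push Not at hc
      obtain ⟨-, d2, -⟩ := k.low hS (by linarith) (by linarith) ex h.g2
      nlinarith
    refine (before_iff hd).2 ⟨r0, p0.le, s0, st, ?_, ?_⟩
    · have := ((h.next hS).low hS (a := s + t) (b := -s) st (by linarith) (by module) k.g1).1
      linarith
    · by_contra hc
      push Not at hc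
      have := ((h.neg hS).low hS (a := p - s) (b := r - t) (by linarith) (by linarith)
        (by module) k.g2).1
      nlinarith
  · right
    have t0 : 0 < t := by
      by_contra hc
      push Not at hc
      nlinarith [mul_nonneg r0 s0.le, mul_nonneg p0.le (neg_nonneg.2 hc)]
    obtain ⟨d1, d2, -⟩ := h.low hS s0.le t0.le rfl k.g1
    have r1 : r = 0 := by
      refine le_antisymm ?_ r0
      by_contra hc
      push Not at hc
      nlinarith [mul_pos hc s0, mul_le_mul c1 d2 t0.le zero_le_one]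
    subst r1
    have p1 : p = 1 := by linarith
    subst p1
    have t1 : t = 1 := by linarith
    subst t1
    have hd' : 0 < dt (x - y) x := by rw [dt_sub_left, dt_self, dt_swap]; linarith
    have := (before_iff hd' (p := 0) (r := 1) (s := -1) (t := 1 + s)).2
      ⟨by norm_num, le_rfl, by norm_num, by linarith, by linarith, by linarith⟩
    convert this using 1 <;> module

lemma six_cases {B0 B1 B2 B3 B4 B5 : Prop} {r p : ℝ} (hne : r ≠ 0 ∨ p ≠ 0)
    (a0 : 0 ≤ r → 0 < p → B0 ∨ B5) (a1 : 0 ≤ -p → 0 < p - -r → B1 ∨ B0)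
    (a2 : 0 ≤ -p - r → 0 < - -r → B2 ∨ B1) (a3 : 0 ≤ -r → 0 < -p → B3 ∨ B2)
    (a4 : 0 ≤ - -p → 0 < -r - p → B4 ∨ B3) (a5 : 0 ≤ r - -p → 0 < -r → B5 ∨ B4) :
    B0 ∨ B1 ∨ B2 ∨ B3 ∨ B4 ∨ B5 := by
  rcases lt_trichotomy p 0 with p0 | p0 | p0
  · rcases lt_or_ge 0 (p + r) with s0 | s0
    · rcases a1 (by linarith) (by linarith) with h | h <;> simp only [h, true_or, or_true]
    rcases lt_or_ge 0 r with r0 | r0
    · rcases a2 (by linarith) (by linarith) with h | h <;> simp only [h, true_or, or_true]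
    · rcases a3 (by linarith) (by linarith) with h | h <;> simp only [h, true_or, or_true]
  · rcases lt_trichotomy r 0 with r0 | r0 | r0
    · rcases a4 (by linarith) (by linarith) with h | h <;> simp only [h, true_or, or_true]
    · rcases hne with h | h
      · exact absurd r0 h
      · exact absurd p0 h
    · rcases a1 (by linarith) (by linarith) with h | h <;> simp only [h, true_or, or_true]
  · rcases le_or_gt 0 r with r0 | r0
    · rcases a0 r0 p0 with h | h <;> simp only [h, true_or, or_true]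
    rcases lt_or_ge (p + r) 0 with s0 | s0
    · rcases a4 (by linarith) (by linarith) with h | h <;> simp only [h, true_or, or_true]
    · rcases a5 (by linarith) (by linarith) with h | h <;> simp only [h, true_or, or_true]

/-- any two hexagons of a critical body are interlaced -/
lemma Crit.six (hC : Crit Q C) {x y u v : Plane} (h : Hex C x y) (k : Hex C u v) :
    Before x y u v ∨ Before y (y - x) u v ∨ Before (y - x) (-x) u v ∨ Before (-x) (-y) u v ∨
      Before (-y) (x - y) u v ∨ Before (x - y) x u v := by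
  have hS := hC.sym0
  have hd := h.pos
  have H1 := h.next hS
  have H2 : Hex C (y - x) (-x) := by simpa using H1.next hS
  have H3 := h.neg hS
  have H4 : Hex C (-y) (x - y) := by simpa using H1.neg hS
  have H5 : Hex C (x - y) x := by simpa using H2.neg hS
  have a0 := hC.half h k
  have a1 := hC.half H1 k
  have a2 := hC.half H2 k
  have a3 := hC.half H3 k
  have a4 := hC.half H4 k
  have a5 := hC.half H5 k
  rw [sub_sub_cancel] at a1
  rw [show y - x - -x = y by abel] at a2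
  rw [show -x - -y = y - x by abel] at a3
  rw [show -y - (x - y) = -x by abel] at a4
  rw [show x - y - x = -y by abel] at a5
  have e1 : dt y u = -dt u y := dt_swap _ _
  have e2 : dt u x = -dt x u := dt_swap _ _
  simp only [dt_sub_left, dt_sub_right, dt_neg_left, dt_neg_right, e1, e2] at a1 a2 a3 a4 a5
  have hne : dt x u ≠ 0 ∨ dt u y ≠ 0 := by
    by_contra hc
    push Not at hc
    have := k.g0
    rw [eq_comb hd.ne' u, hc.1, hc.2] at this
    simp at this
  exact six_cases hne a0 a1 a2 a3 a4 a5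

lemma aOf_two (x y : Plane) : aOf (y - x) (-x) = aOf y (y - x) - aOf x y := by
  refine plane_ext ?_ ?_ <;>
    simp only [aOf, pt_zero, pt_one, PiLp.sub_apply, PiLp.neg_apply] <;> ring

/-- the order of the regular parts determines the order of the vertices -/
lemma Crit.order (hC : Crit Q C) {x y u v : Plane} (h : Hex C x y) (k : Hex C u v)
    (h0 : 0 ≤ dt (aOf x y) (aOf u v)) (h1 : 0 < dt (aOf u v) (aOf y (y - x))) :
    Before x y u v := by
  have hS := hC.sym0
  have H1 := h.next hS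
  have H2 : Hex C (y - x) (-x) := by simpa using H1.next hS
  have H3 := h.neg hS
  have H4 : Hex C (-y) (x - y) := by simpa using H1.neg hS
  have H5 : Hex C (x - y) x := by simpa using H2.neg hS
  have refl : Before x y x y := by
    have := (before_iff h.pos (p := 1) (r := 0) (s := 0) (t := 1)).2 (by norm_num)
    simpa using this
  have f1 := dt_swap (aOf u v) (aOf x y)
  have f2 := dt_swap (aOf u v) (aOf y (y - x))
  rcases hC.six h k with b | b | b | b | b | b
  · exact b
  · linarith [(b.mono hS H1 k).1]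
  · have := (b.mono hS H2 k).1
    rw [aOf_two, dt_sub_left] at this
    linarith
  · have := (b.mono hS H3 k)
    rw [aOf_neg, dt_neg_left] at this
    obtain ⟨rfl, rfl⟩ := this.2 (by linarith [this.1])
    have := (refl.swap.mono hS h H1).1
    rw [aOf_neg, dt_neg_left] at h1
    linarith
  · have := (b.swap.mono hS k (by simpa using H4.next hS)).1
    rw [show x - y - -y = x by abel, show aOf (x - y) x = -aOf (y - x) (-x) by
      rw [← aOf_neg]; simp, aOf_two, dt_neg_right, dt_sub_right] at this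
    linarith
  · have := b.swap.mono hS k (by simpa using H5.next hS)
    rw [sub_sub_cancel] at this
    obtain ⟨rfl, rfl⟩ := this.2 (by linarith [this.1])
    exact refl

lemma Sym0.exists_hex (hC : Sym0 C) {x : Plane} (hx : gauge C x = 1) : ∃ y, Hex C x y := by
  have h0 : x ≠ 0 := fun e => by rw [e, gauge_zero] at hx; norm_num at hx
  obtain ⟨y, y1, y2, y3⟩ := hC.iso h0 (r := 1) (by linarith)
  refine ⟨y, hx, y1, y2, y3.lt_of_ne fun e => ?_⟩
  obtain ⟨s, rfl⟩ := exists_smul_of_dt h0 e.symm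
  rw [show s • x - x = (s - 1) • x by module] at y2
  rw [hC.g_smul, hx, mul_one] at y1 y2
  rcases abs_eq_abs.1 (y1.trans y2.symm) with k | k
  · linarith
  · rw [show s = 1 / 2 by linarith, abs_of_pos (by norm_num)] at y1
    norm_num at y1

/-- two hexagons with a common vertex are joined by a segment of hexagons -/
lemma Hex.seg (hC : Sym0 C) {x y : Plane} {s : ℝ} (h : Hex C x y) (k : Hex C x (y + s • x))
    {τ : ℝ} (t0 : 0 ≤ τ) (t1 : τ ≤ 1) : Hex C x (y + (τ * s) • x) := by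
  have u1 := hC.g_comb (x := y + (τ * s) • x) (u := y) (v := y + s • x) (a := 1 - τ)
    (by linarith) t0 (by module)
  have u2 := hC.g_comb (x := y + (τ * s) • x - x) (u := y - x) (v := y + s • x - x) (a := 1 - τ)
    (by linarith) t0 (by module)
  rw [h.g1, k.g1] at u1
  rw [h.g2, k.g2] at u2
  refine ⟨h.g0, le_antisymm (by linarith) ?_, le_antisymm (by linarith) ?_, by
    rw [dt_add_right, dt_smul_right, dt_self]; linarith [h.pos]⟩
  · rcases le_total 0 s with s0 | s0
    · have := hC.hex_low h.g1 h.g2 (mul_nonneg t0 s0) zero_le_one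
      rwa [show (τ * s) • x + (1 : ℝ) • y = y + (τ * s) • x by module] at this
    · have := hC.hex_low k.g1 k.g2 (a := (1 - τ) * (-s)) (mul_nonneg (by linarith) (by linarith))
        zero_le_one
      rwa [show ((1 - τ) * (-s)) • x + (1 : ℝ) • (y + s • x) = y + (τ * s) • x by module] at this
  · rcases le_total 0 s with s0 | s0
    · have := hC.hex_low (x := -x) k.g2 (by rw [sub_neg_eq_add, sub_add_cancel]; exact k.g1)
        (a := (1 - τ) * s) (mul_nonneg (by linarith) s0) zero_le_one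
      rwa [show ((1 - τ) * s) • (-x) + (1 : ℝ) • (y + s • x - x) = y + (τ * s) • x - x by module]
        at this
    · have := hC.hex_low (x := -x) h.g2 (by rw [sub_neg_eq_add, sub_add_cancel]; exact h.g1)
        (a := τ * (-s)) (mul_nonneg t0 (by linarith)) zero_le_one
      rwa [show (τ * (-s)) • (-x) + (1 : ℝ) • (y - x) = y + (τ * s) • x - x by module] at this

lemma Crit.exists_dt (hC : Crit Q C) (n : Plane) : ∃ x y, Hex C x y ∧ dt (aOf x y) n = 0 := by
  have hS := hC.sym0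
  have gc := hS.g_cont
  have p0 : ∀ θ, 0 < gauge C (pol 1 θ) := fun θ => hS.g_pos (norm_ne_zero_iff.1 (by
    rw [norm_pol]; norm_num))
  let z : ℝ → Plane := fun θ => (gauge C (pol 1 θ))⁻¹ • pol 1 θ
  have pc : Continuous (pol 1) := by unfold pol pt; fun_prop
  have zc : Continuous z := ((gc.comp pc).inv₀ fun θ => (p0 θ).ne').smul pc
  have z1 : ∀ θ, gauge C (z θ) = 1 := fun θ => by
    rw [hS.g_smul, abs_of_pos (inv_pos.2 (p0 θ)), inv_mul_cancel₀ (p0 θ).ne']
  have zp : z π = -z 0 := by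
    have : pol 1 π = -pol 1 0 := plane_ext (by simp [pol]) (by simp [pol])
    simp only [z, this, hS.g_neg, smul_neg]
  obtain ⟨y0, H0⟩ := hS.exists_hex (z1 0)
  have hQ : 0 < Q := hC.q H0 ▸ H0.pos
  have cl : ∀ σ : ℝ, IsClosed {θ ∈ Icc 0 π | ∃ y, Hex C (z θ) y ∧ 0 ≤ σ * dt (aOf (z θ) y) n} := by
    intro σ
    have : {θ ∈ Icc 0 π | ∃ y, Hex C (z θ) y ∧ 0 ≤ σ * dt (aOf (z θ) y) n} = Prod.fst ''
        ((Icc 0 π ×ˢ C) ∩ {w : ℝ × Plane | gauge C w.2 = 1 ∧ gauge C (w.2 - z w.1) = 1 ∧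
          dt (z w.1) w.2 = Q ∧ 0 ≤ σ * dt (aOf (z w.1) w.2) n}) := by
      ext θ
      constructor
      · rintro ⟨h1, y, h2, h3⟩
        exact ⟨(θ, y), ⟨⟨h1, hS.g_le.1 h2.g1.le⟩, h2.g1, h2.g2, hC.q h2, h3⟩, rfl⟩
      · rintro ⟨⟨θ, y⟩, ⟨⟨h1, -⟩, h2, h3, h4, h5⟩, rfl⟩
        exact ⟨h1, y, ⟨z1 θ, h2, h3, by rw [h4]; exact hQ⟩, h5⟩
    rw [this]
    refine (((isCompact_Icc.prod hS.cpt).inter_right ?_).image continuous_fst).isClosed
    have c4 : IsClosed {w : ℝ × Plane | 0 ≤ σ * dt (aOf (z w.1) w.2) n} :=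
      isClosed_le continuous_const (by simp only [dt, aOf, pt_zero, pt_one]; fun_prop)
    exact (isClosed_eq (by fun_prop) continuous_const).inter ((isClosed_eq (by fun_prop)
      continuous_const).inter ((isClosed_eq (by unfold dt; fun_prop) continuous_const).inter c4))
  have ne : ∀ σ : ℝ, (Icc 0 π ∩
      {θ ∈ Icc 0 π | ∃ y, Hex C (z θ) y ∧ 0 ≤ σ * dt (aOf (z θ) y) n}).Nonempty := by
    intro σ
    have m0 : (0 : ℝ) ∈ Icc 0 π := ⟨le_rfl, pi_pos.le⟩
    have m1 : π ∈ Icc 0 π := ⟨pi_pos.le, le_rfl⟩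
    rcases le_total 0 (σ * dt (aOf (z 0) y0) n) with k | k
    · exact ⟨0, m0, m0, y0, H0, k⟩
    · refine ⟨π, m1, m1, -y0, zp ▸ H0.neg hS, ?_⟩
      rw [zp, aOf_neg, dt_neg_left]
      linarith
  obtain ⟨θ, -, ⟨-, y, H1, k1⟩, -, y', H2, k2⟩ := isPreconnected_closed_iff.1
    (isPreconnected_Icc (a := 0) (b := π)) _ _ (cl 1) (cl (-1)) (fun θ hθ => by
      obtain ⟨y, H⟩ := hS.exists_hex (z1 θ)
      rcases le_total 0 (dt (aOf (z θ) y) n) with k | k
      · exact Or.inl ⟨hθ, y, H, by linarith⟩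
      · exact Or.inr ⟨hθ, y, H, by linarith⟩) (ne 1) (ne (-1))
  have h0 : z θ ≠ 0 := fun e => by have := z1 θ; rw [e, gauge_zero] at this; norm_num at this
  generalize z θ = x at *
  obtain ⟨s, hs⟩ := exists_smul_of_dt (y := y' - y) h0 (by
    rw [dt_sub_right, hC.q H1, hC.q H2, sub_self])
  obtain rfl : y' = y + s • x := by rw [← hs]; abel
  obtain ⟨τ, ⟨t0, t1⟩, e⟩ := intermediate_value_Icc' zero_le_one
    (f := fun τ : ℝ => dt (aOf x (y + (τ * s) • x)) n) (by
      simp only [dt, aOf, pt_zero, pt_one]; fun_prop) (show (0 : ℝ) ∈ _ from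
        ⟨by simpa using k2, by simpa using k1⟩)
  exact ⟨x, _, H1.seg hS H2 t0 t1, e⟩

/-- there is a hexagon whose regular part has a prescribed direction -/
lemma Crit.exists_dir (hC : Crit Q C) (t : ℝ) :
    ∃ x y, Hex C x y ∧ ∃ ρ : ℝ, 0 < ρ ∧ aOf x y = pol ρ t := by
  obtain ⟨x, y, H, e⟩ := hC.exists_dt (pol 1 t)
  obtain ⟨ρ, hρ⟩ := exists_smul_of_dt (p := pol 1 t) (y := aOf x y)
    (norm_ne_zero_iff.1 (by rw [norm_pol]; norm_num)) (by rw [dt_swap, e, neg_zero])
  have e1 : ∀ r : ℝ, r • pol 1 t = pol r t := fun r => plane_ext (by simp [pol]) (by simp [pol])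
  rcases lt_trichotomy ρ 0 with k | k | k
  · exact ⟨-x, -y, H.neg hC.sym0, -ρ, by linarith, by rw [aOf_neg, hρ, ← e1 (-ρ), neg_smul]⟩
  · exfalso
    have := aOf_norm x y
    rw [hρ, k, zero_smul, norm_zero] at this
    have h3 : 0 < 2 * √3 / 3 * dt x y := mul_pos (by positivity) H.pos
    nlinarith [sq_nonneg ‖x - 0‖]
  · exact ⟨x, y, H, ρ, k, by rw [hρ, e1]⟩

lemma Crit.order_pol (hC : Crit Q C) {x y u v : Plane} (h : Hex C x y) (k : Hex C u v)
    {ρ σ s t : ℝ} (hρ : 0 < ρ) (hσ : 0 < σ) (e1 : aOf x y = pol ρ s) (e2 : aOf u v = pol σ t)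
    (h0 : s ≤ t) (h1 : t < s + π / 3) : Before x y u v := by
  have := pi_pos
  refine hC.order h k ?_ ?_
  · rw [e1, e2, dt_pol2]
    exact mul_nonneg (by positivity) (sin_nonneg_of_nonneg_of_le_pi (by linarith) (by linarith))
  · rw [aOf_next, e1, e2, rot_pol, dt_pol2]
    exact mul_pos (by positivity) (sin_pos_of_pos_of_lt_pi (by linarith) (by linarith))

lemma Crit.unique (hC : Crit Q C) {x y u v : Plane} (h : Hex C x y) (k : Hex C u v)
    {ρ σ t : ℝ} (hρ : 0 < ρ) (hσ : 0 < σ) (e1 : aOf x y = pol ρ t) (e2 : aOf u v = pol σ t) :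
    u = x ∧ v = y :=
  ((hC.order_pol h k hρ hσ e1 e2 le_rfl (by linarith [pi_pos])).mono hC.sym0 h k).2 (by
    rw [e1, e2, dt_pol2, sub_self, sin_zero, mul_zero])

end Pool.Agent.Lib.MP_fb520c_co
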